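import Mathlib
import Pool.Agent.Work.MP_787500_nt.PA.ParityDefs

/-!
Parity of Selmer groups over a compact group with a decomposition group that maps onto all good
quotients: generic definitions (any prime `p`).
-/

set_option autoImplicit false
set_option linter.unusedSectionVars false

namespace Pool.Agent.Work.MP_787500_nt.Gn

open Matrix

section cochains

variable {G : Type*} [Group G] (mem : Subgroup G → Prop)
variable {E : Type*} [NormedField E]

/-- uniform continuity for the family of subgroups `mem` -/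
def N1 {A : Type*} [NormedAddCommGroup A] (z : G → A) : Prop :=
  ∀ ε : ℝ, 0 < ε → ∃ W, mem W ∧ ∀ g, ∀ w ∈ W, ‖z (g * w) - z g‖ < ε

/-- uniform continuity for the family of subgroups `mem`, two variables -/
def N2 {A : Type*} [NormedAddCommGroup A] (f : G → G → A) : Prop :=
  ∀ ε : ℝ, 0 < ε → ∃ W, mem W ∧ ∀ g h, ∀ w ∈ W, ∀ w' ∈ W, ‖f (g * w) (h * w') - f g h‖ < ε

/-- the coboundary of `z`, with values in `E` twisted by `χ` -/
def dE (χ : G → E) (z : G → E) : G → G → E := fun g h => z g + χ g * z h - z (g * h)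

/-- continuous 2-cocycles with values in `E` twisted by `χ` -/
def ZE (χ : G → E) (f : G → G → E) : Prop :=
  N2 mem f ∧ ∀ g h k, f g h + f (g * h) k = χ g * f h k + f g (h * k)

/-- coboundaries of continuous functions -/
def BE (χ : G → E) (f : G → G → E) : Prop := ∃ z : G → E, N1 mem z ∧ f = dE χ z

/-- an invariant map for the second cohomology with values in `E` twisted by `χ`, which is invariant
under `κ` -/
structure InvMap (χ : G → E) (κ : G → G) (inv : (G → G → E) → E) : Prop where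
  add : ∀ f f', ZE mem χ f → ZE mem χ f' → inv (fun g h => f g h + f' g h) = inv f + inv f'
  smul : ∀ (a : E) (f), ZE mem χ f → inv (fun g h => a * f g h) = a * inv f
  ker : ∀ f, ZE mem χ f → (inv f = 0 ↔ BE mem χ f)
  kap : ∀ f, ZE mem χ f → inv (fun g h => f (κ g) (κ h)) = inv f

/-- `κ` is an involution of the group preserving the family `mem` and the character -/
structure IsInvol (χ : G → E) (κ : G → G) : Prop where
  mul : ∀ g h, κ (g * h) = κ g * κ h
  inv : ∀ g, κ (κ g) = g
  sys : ∀ W, mem W → ∃ W', mem W' ∧ ∀ g ∈ W', κ g ∈ W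
  chi : ∀ g, χ (κ g) = χ g

end cochains

section topological

variable {G : Type*} [Group G] [TopologicalSpace G] (p : ℕ) (H : Subgroup G) (I : Set G)

/-- open normal subgroups contained in `H`, with `H / W` a `p`-group, which contain `I` -/
structure GoodG (W : Subgroup G) : Prop where
  normal : W.Normal
  isOpen : IsOpen (W : Set G)
  le : W ≤ H
  pow : ∀ g ∈ H, ∃ k : ℕ, g ^ (p ^ k) ∈ W
  inertia : ∀ σ ∈ I, σ ∈ W

/-- the intersection of all good subgroups -/
def core : Subgroup G := sInf {W | GoodG p H I W}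

/-- `H` is open and normal and contains `I`, and `I` is stable under conjugation -/
structure Base : Prop where
  normal : H.Normal
  isOpen : IsOpen (H : Set G)
  le : ∀ σ ∈ I, σ ∈ H
  conj : ∀ g : G, ∀ σ ∈ I, g⁻¹ * σ * g ∈ I

/-- `D` is a closed subgroup that maps onto all good quotients, and every continuous homomorphism
from `D ⊓ W`, `W` good, to `ZMod p` is the restriction of a smooth homomorphism of `W`; open subgroups
are a basis of neighbourhoods of 1. -/
structure Setup (D : Subgroup G) : Prop extends Base H I where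
  basis : ∀ O ∈ nhds (1 : G), ∃ U : Subgroup G, IsOpen (U : Set G) ∧ (U : Set G) ⊆ O
  closed : IsClosed (D : Set G)
  top : ∀ W, GoodG p H I W → ∀ g, ∃ d ∈ D, d⁻¹ * g ∈ W
  loc : ∀ W, GoodG p H I W → ∀ lam : G → ZMod p,
    (∀ g ∈ D ⊓ W, ∀ h ∈ D ⊓ W, lam (g * h) = lam g + lam h) →
    (∃ U' : Subgroup G, IsOpen (U' : Set G) ∧ ∀ g ∈ D ⊓ W ⊓ U', lam g = 0) →
    ∃ ψ : G → ZMod p, (∃ W', GoodG p H I W' ∧ ∀ g ∈ W', ψ g = 0) ∧ ∀ g ∈ D ⊓ W, lam g = ψ g

end topological

section conjdual

variable {G : Type*} [Group G] [TopologicalSpace G]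
variable {E : Type*} [NormedField E] {n : ℕ}

/-- `ρ` is a continuous representation of `G` on `E ^ n`, pro-`p` on `H`, trivial on the subset `I`,
and `b` is the matrix of a symmetric bilinear form with `b (ρ σ x) (ρ (κ σ) y) = χ σ * b x y`. -/
structure ConjDual (p : ℕ) (H : Subgroup G) (I : Set G) (χ : G → E) (κ : G → G)
    (ρ : G →* Matrix (Fin n) (Fin n) E) (b : Matrix (Fin n) (Fin n) E) : Prop where
  cont : Continuous ρ
  proP : ∀ σ ∈ H, Filter.Tendsto (fun k : ℕ => ρ (σ ^ p ^ k)) Filter.atTop (nhds 1)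
  unram : ∀ σ ∈ I, ρ σ = 1
  symm : bᵀ = b
  dual : ∀ σ, (ρ σ)ᵀ * b * ρ (κ σ) = χ σ • b

/-- the cocycles of `G` that are uniformly continuous for the family `mem` -/
def Zg {G : Type*} [Group G] (mem : Subgroup G → Prop) (hex : ∃ W, mem W)
    (hinf : ∀ {W W'}, mem W → mem W' → mem (W ⊓ W'))
    (ρ : G →* Matrix (Fin n) (Fin n) E) : Submodule E (G → Fin n → E) where
  carrier := {X | N1 mem X ∧ ∀ g h, X (g * h) = X g + ρ g *ᵥ X h}
  add_mem' := by
    rintro X Y ⟨h1, h2⟩ ⟨h1', h2'⟩
    refine ⟨fun ε hε => ?_, fun g h => ?_⟩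
    · obtain ⟨W, hW, hX⟩ := h1 (ε / 2) (half_pos hε)
      obtain ⟨W', hW', hY⟩ := h1' (ε / 2) (half_pos hε)
      refine ⟨W ⊓ W', hinf hW hW', fun g w hw => ?_⟩
      have h3 : (X + Y) (g * w) - (X + Y) g = (X (g * w) - X g) + (Y (g * w) - Y g) := by
        simp only [Pi.add_apply]
        abel
      rw [h3]
      exact (norm_add_le _ _).trans_lt (by linarith [hX g w hw.1, hY g w hw.2])
    · simp only [Pi.add_apply, h2, h2', mulVec_add]
      abel
  zero_mem' := by
    refine ⟨fun ε hε => ?_, fun g h => by simp⟩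
    obtain ⟨W, hW⟩ := hex
    exact ⟨W, hW, fun g w _ => by simpa using hε⟩
  smul_mem' := by
    rintro a X ⟨h1, h2⟩
    refine ⟨fun ε hε => ?_, fun g h => ?_⟩
    · obtain ⟨W, hW, hX⟩ := h1 (ε / (‖a‖ + 1)) (by positivity)
      refine ⟨W, hW, fun g w hw => ?_⟩
      have h3 : (a • X) (g * w) - (a • X) g = a • (X (g * w) - X g) := by
        simp only [Pi.smul_apply, smul_sub]
      rw [h3, norm_smul]
      have h4 := hX g w hw
      have h5 : 0 ≤ ‖a‖ := norm_nonneg a
      rw [lt_div_iff₀ (by positivity)] at h4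
      have h6 : 0 ≤ ‖X (g * w) - X g‖ := norm_nonneg _
      nlinarith
    · simp only [Pi.smul_apply, h2, mulVec_smul, smul_add]

/-- the cup product of the cocycle `X` and the cocycle `Y ∘ κ` -/
def om {G : Type*} [Group G] (κ : G → G) (ρ : G →* Matrix (Fin n) (Fin n) E)
    (b : Matrix (Fin n) (Fin n) E) (X Y : G → Fin n → E) (g h : G) : E :=
  X g ⬝ᵥ (b *ᵥ (ρ (κ g) *ᵥ Y (κ h)))

end conjdual

section lemmas

variable {G : Type*} [Group G] [TopologicalSpace G] [IsTopologicalGroup G] {p : ℕ} {H : Subgroup G}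
  {I : Set G}

theorem pow_mem_of_le {W : Subgroup G} {g : G} {k l : ℕ} (hkl : k ≤ l)
    (h : g ^ p ^ k ∈ W) : g ^ p ^ l ∈ W := by
  obtain ⟨m, rfl⟩ := Nat.exists_eq_add_of_le hkl
  rw [pow_add, pow_mul]
  exact W.pow_mem h _

theorem GoodG.top (hB : Base H I) : GoodG p H I H :=
  ⟨hB.normal, hB.isOpen, le_rfl, fun g hg => ⟨0, by simpa using hg⟩, hB.le⟩

theorem GoodG.inf {W W' : Subgroup G} (h : GoodG p H I W) (h' : GoodG p H I W') :
    GoodG p H I (W ⊓ W') := by
  have := h.normal
  have := h'.normal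
  refine ⟨inferInstance, h.isOpen.inter h'.isOpen, inf_le_left.trans h.le, fun g hg => ?_,
    fun σ hσ => ⟨h.inertia σ hσ, h'.inertia σ hσ⟩⟩
  obtain ⟨k, hk⟩ := h.pow g hg
  obtain ⟨l, hl⟩ := h'.pow g hg
  exact ⟨max k l, pow_mem_of_le (le_max_left k l) hk, pow_mem_of_le (le_max_right k l) hl⟩

theorem core_le {W : Subgroup G} (hW : GoodG p H I W) : core p H I ≤ W := sInf_le hW

theorem core_normal : (core p H I).Normal := by
  constructor
  intro n hn g
  rw [core, Subgroup.mem_sInf] at hn ⊢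
  intro W hW
  exact (GoodG.normal hW).conj_mem n (hn W hW) g

theorem core_closed : IsClosed ((core p H I : Subgroup G) : Set G) := by
  rw [core, Subgroup.coe_sInf]
  exact isClosed_biInter fun W hW => Subgroup.isClosed_of_isOpen W (GoodG.isOpen hW)

theorem inertia_le_core {σ : G} (hσ : σ ∈ I) : σ ∈ core p H I := by
  rw [core, Subgroup.mem_sInf]
  intro W hW
  exact GoodG.inertia hW σ hσ

theorem N1.continuous {A : Type*} [NormedAddCommGroup A] {z : G → A}
    (hz : N1 (GoodG p H I) z) : Continuous z := by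
  rw [continuous_iff_continuousAt]
  intro g
  rw [Metric.continuousAt_iff']
  intro ε hε
  obtain ⟨W, hW, hsm⟩ := hz ε hε
  have h1 : {x : G | g⁻¹ * x ∈ W} ∈ nhds g := by
    have h2 : IsOpen {x : G | g⁻¹ * x ∈ W} :=
      hW.isOpen.preimage (continuous_const.mul continuous_id)
    refine h2.mem_nhds ?_
    change g⁻¹ * g ∈ W
    rw [inv_mul_cancel]
    exact W.one_mem
  filter_upwards [h1] with x hx
  have h3 := hsm g (g⁻¹ * x) hx
  rw [mul_inv_cancel_left] at h3
  rwa [dist_eq_norm]

theorem N1.core {A : Type*} [NormedAddCommGroup A] {z : G → A}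
    (hz : N1 (GoodG p H I) z) (g : G) {k : G} (hk : k ∈ Gn.core p H I) : z (g * k) = z g := by
  rw [← sub_eq_zero, ← norm_le_zero_iff]
  refine le_of_forall_pos_le_add fun ε hε => ?_
  obtain ⟨W, hW, hsm⟩ := hz ε hε
  rw [zero_add]
  exact (hsm g k (core_le hW hk)).le

end lemmas

end Pool.Agent.Work.MP_787500_nt.Gn
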