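import Mathlib
import Pool.Agent.Work.MP_787500_nt.Gn.Defs

/-!
Representations that are pro-`p` on `H` and trivial on `I` are trivial on small good subgroups.
-/

set_option autoImplicit false
set_option linter.unusedSectionVars false

namespace Pool.Agent.Work.MP_787500_nt.Gn

open Matrix

variable {G : Type*} [Group G] [TopologicalSpace G] [IsTopologicalGroup G] [CompactSpace G]
variable {p : ℕ} [hp : Fact p.Prime] {H : Subgroup G} {I : Set G}
variable {E : Type*} [NormedField E] [NormedAlgebra ℚ_[p] E]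

theorem ultra (p : ℕ) [Fact p.Prime] (E : Type*) [NormedField E] [NormedAlgebra ℚ_[p] E] :
    IsUltrametricDist E :=
  IsUltrametricDist.of_normedAlgebra ℚ_[p]

theorem sr_sum [IsUltrametricDist E] {ι : Type*}
    (s : Finset ι) (f : ι → E) {δ : ℝ} (hδ : 0 < δ) (h : ∀ i ∈ s, ‖f i‖ < δ) :
    ‖∑ i ∈ s, f i‖ < δ := by
  classical
  induction s using Finset.induction_on with
  | empty => simpa using hδ
  | insert a s ha ih =>
    rw [Finset.sum_insert ha]
    refine (IsUltrametricDist.norm_add_le_max _ _).trans_lt (max_lt ?_ ?_)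
    · exact h a (Finset.mem_insert_self a s)
    · exact ih fun i hi => h i (Finset.mem_insert_of_mem hi)

theorem sr_sub_one [IsUltrametricDist E] {m : Type*}
    [Fintype m] [DecidableEq m] (A B : Matrix m m E) {δ : ℝ} (hδ : 0 < δ) (hδ1 : δ ≤ 1)
    (hA : ∀ i j, ‖(A - 1) i j‖ < δ) (hB : ∀ i j, ‖(B - 1) i j‖ < δ) (i j : m) :
    ‖(A * B - 1) i j‖ < δ := by
  have h1 : A * B - 1 = (A - 1) * (B - 1) + ((A - 1) + (B - 1)) := by
    noncomm_ring
  rw [h1, Matrix.add_apply, Matrix.add_apply]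
  refine (IsUltrametricDist.norm_add_le_max _ _).trans_lt (max_lt ?_ ?_)
  · rw [Matrix.mul_apply]
    refine sr_sum _ _ hδ fun k _ => ?_
    rw [norm_mul]
    calc ‖(A - 1) i k‖ * ‖(B - 1) k j‖ ≤ 1 * ‖(B - 1) k j‖ :=
          mul_le_mul_of_nonneg_right ((hA i k).le.trans hδ1) (norm_nonneg _)
      _ < δ := by rw [one_mul]; exact hB k j
  · exact (IsUltrametricDist.norm_add_le_max _ _).trans_lt (max_lt (hA i j) (hB i j))

theorem small_rho (hB : Base H I) {m : Type*} [Fintype m] [DecidableEq m] (r : G →* Matrix m m E)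
    (hcont : Continuous r)
    (hpro : ∀ σ ∈ H, Filter.Tendsto (fun k : ℕ => r (σ ^ p ^ k)) Filter.atTop (nhds 1))
    (hun : ∀ σ ∈ I, r σ = 1) {ε : ℝ} (hε : 0 < ε) :
    ∃ W : Subgroup G, GoodG p H I W ∧ ∀ w ∈ W, ∀ i j, ‖(r w - 1) i j‖ < ε := by
  classical
  have hu := ultra p E
  obtain ⟨δ, hδ, hδ1, hδε⟩ : ∃ δ : ℝ, 0 < δ ∧ δ ≤ 1 ∧ δ ≤ ε :=
    ⟨min 1 ε, lt_min one_pos hε, min_le_left _ _, min_le_right _ _⟩
  set V : Set G := {g | ∀ i j, ‖(r g - 1) i j‖ < δ} with hV
  have hVo : IsOpen V := by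
    have h1 : V = ⋂ i, ⋂ j, {g | ‖(r g - 1) i j‖ < δ} := by
      ext g; simp [hV]
    rw [h1]
    refine isOpen_iInter_of_finite fun i => isOpen_iInter_of_finite fun j => ?_
    refine isOpen_lt ?_ continuous_const
    exact ((hcont.sub continuous_const).matrix_elem i j).norm
  have hV1 : ∀ g, r g = 1 → g ∈ V := fun g hg i j => by
    rw [hg, sub_self]; simpa using hδ
  let U : Subgroup G :=
    { carrier := {g | g ∈ V ∧ g⁻¹ ∈ V}
      mul_mem' := by
        rintro a b ⟨ha, ha'⟩ ⟨hb, hb'⟩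
        refine ⟨fun i j => ?_, fun i j => ?_⟩
        · rw [map_mul]; exact sr_sub_one _ _ hδ hδ1 ha hb i j
        · rw [_root_.mul_inv_rev, map_mul]; exact sr_sub_one _ _ hδ hδ1 hb' ha' i j
      one_mem' := ⟨hV1 1 (map_one r), by rw [inv_one]; exact hV1 1 (map_one r)⟩
      inv_mem' := by
        rintro a ⟨ha, ha'⟩
        exact ⟨ha', by rw [inv_inv]; exact ha⟩ }
  have hUo : IsOpen (U : Set G) := hVo.inter (hVo.preimage continuous_inv)
  have hfin : Finite (G ⧸ U) := Subgroup.quotient_finite_of_isOpen U hUo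
  have hUfi : U.FiniteIndex := Subgroup.finiteIndex_of_finite_quotient
  have hUc : IsClosed (U : Set G) := Subgroup.isClosed_of_isOpen U hUo
  have hWo : IsOpen (U.normalCore : Set G) :=
    Subgroup.isOpen_of_isClosed_of_finiteIndex _ (U.normalCore_isClosed hUc)
  have hmem : ∀ x, (∀ h : G, h⁻¹ * x * h ∈ U) → x ∈ U.normalCore := by
    intro x hx b
    have := hx b⁻¹
    rwa [inv_inv] at this
  have hev : ∀ σ ∈ H, ∀ᶠ k : ℕ in Filter.atTop, σ ^ p ^ k ∈ V := by
    intro σ hσ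
    have h1 : ∀ i j, ∀ᶠ k : ℕ in Filter.atTop, ‖(r (σ ^ p ^ k) - 1) i j‖ < δ := by
      intro i j
      have h2 : Filter.Tendsto (fun k : ℕ => ‖(r (σ ^ p ^ k) - 1) i j‖) Filter.atTop (nhds 0) := by
        have h3 : Filter.Tendsto (fun k : ℕ => (r (σ ^ p ^ k)) i j) Filter.atTop
            (nhds ((1 : Matrix m m E) i j)) :=
          (tendsto_pi_nhds.1 ((tendsto_pi_nhds.1 (hpro σ hσ)) i)) j
        have h4 := (h3.sub_const ((1 : Matrix m m E) i j)).norm
        rw [sub_self, norm_zero] at h4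
        exact h4
      exact h2.eventually_lt_const hδ
    filter_upwards [Filter.eventually_all.2 fun i => Filter.eventually_all.2 fun j => h1 i j]
      with k hk
    exact hk
  have hHn := hB.normal
  refine ⟨U.normalCore ⊓ H, ⟨inferInstance, hWo.inter hB.isOpen, inf_le_right, ?_, ?_⟩, ?_⟩
  · intro g hgH
    have hq : ∀ q : G ⧸ U, ∀ᶠ k : ℕ in Filter.atTop,
        (q.out)⁻¹ * g ^ p ^ k * q.out ∈ U := by
      intro q
      have hcH : (q.out)⁻¹ * g * q.out ∈ H := by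
        have := hHn.conj_mem g hgH (q.out)⁻¹
        rwa [inv_inv] at this
      filter_upwards [hev ((q.out)⁻¹ * g * q.out) hcH,
        hev (((q.out)⁻¹ * g * q.out)⁻¹) (H.inv_mem hcH)] with k h1 h2
      have h3 : ((q.out)⁻¹ * g * q.out) ^ p ^ k = (q.out)⁻¹ * g ^ p ^ k * q.out := by
        have := conj_pow (i := p ^ k) (a := (q.out)⁻¹) (b := g)
        rwa [inv_inv] at this
      rw [h3] at h1
      rw [inv_pow, h3] at h2
      exact ⟨h1, h2⟩
    obtain ⟨k, hk⟩ := (Filter.eventually_all.2 hq).exists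
    refine ⟨k, hmem _ fun h => ?_, H.pow_mem hgH _⟩
    have h1 := hk (QuotientGroup.mk h)
    obtain ⟨u, hu⟩ := QuotientGroup.mk_out_eq_mul U h
    have h2 : h = ((QuotientGroup.mk h : G ⧸ U).out) * (u : G)⁻¹ := by
      rw [hu]; group
    have h3 : h⁻¹ * g ^ p ^ k * h = (u : G) * (((QuotientGroup.mk h : G ⧸ U).out)⁻¹ *
        g ^ p ^ k * ((QuotientGroup.mk h : G ⧸ U).out)) * (u : G)⁻¹ := by
      conv_lhs => rw [h2]
      group
    rw [h3]
    exact U.mul_mem (U.mul_mem u.2 h1) (U.inv_mem u.2)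
  · intro σ hσ
    refine ⟨hmem σ fun h => ?_, hB.le σ hσ⟩
    have h1 : r (h⁻¹ * σ * h) = 1 := hun _ (hB.conj h σ hσ)
    refine ⟨hV1 _ h1, hV1 _ ?_⟩
    have h2 : r (h⁻¹ * σ * h)⁻¹ * r (h⁻¹ * σ * h) = 1 := by
      rw [← map_mul, inv_mul_cancel, map_one]
    rwa [h1, mul_one] at h2
  · intro w hw i j
    exact ((U.normalCore_le hw.1).1 i j).trans_le hδε

end Pool.Agent.Work.MP_787500_nt.Gn
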