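import Mathlib
import Pool.Agent.Work.MP_787500_nt.Gn.SmallRho

/-!
First consequences of `small_rho`.
-/

set_option autoImplicit false
set_option linter.unusedSectionVars false

namespace Pool.Agent.Work.MP_787500_nt.Gn

open Matrix

variable {G : Type*} [Group G] [TopologicalSpace G] [IsTopologicalGroup G] [CompactSpace G]
variable {p : ℕ} [hp : Fact p.Prime] {H : Subgroup G} {I : Set G}
variable {E : Type*} [NormedField E] [NormedAlgebra ℚ_[p] E]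
variable {n : ℕ} {χ : G → E}

theorem mulVec_norm_le (A : Matrix (Fin n) (Fin n) E) {c : ℝ} (hc : 0 ≤ c)
    (hA : ∀ i j, ‖A i j‖ ≤ c) (x : Fin n → E) : ‖A *ᵥ x‖ ≤ (n * c) * ‖x‖ := by
  rw [pi_norm_le_iff_of_nonneg (by positivity)]
  intro i
  simp only [mulVec, dotProduct]
  calc ‖∑ j, A i j * x j‖ ≤ ∑ j, ‖A i j * x j‖ := norm_sum_le _ _
    _ ≤ ∑ _j : Fin n, c * ‖x‖ := by
        refine Finset.sum_le_sum fun j _ => ?_
        rw [norm_mul]
        exact mul_le_mul (hA i j) (norm_le_pi_norm x j) (norm_nonneg _) hc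
    _ = (n * c) * ‖x‖ := by
        rw [Finset.sum_const, Finset.card_univ, Fintype.card_fin, nsmul_eq_mul]
        ring

theorem rho_bound {κ : G → G} {ρ : G →* Matrix (Fin n) (Fin n) E}
    {b : Matrix (Fin n) (Fin n) E} (hρ : ConjDual p H I χ κ ρ b) :
    ∃ C : ℝ, 0 < C ∧ ∀ g x, ‖ρ g *ᵥ x‖ ≤ C * ‖x‖ := by
  have h1 : ∀ i j, ∃ c : ℝ, ∀ g, ‖ρ g i j‖ ≤ c := by
    intro i j
    have hc : Continuous fun g => ρ g i j := (hρ.cont.matrix_elem i j)
    obtain ⟨c, hc'⟩ := (isCompact_range hc).isBounded.exists_norm_le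
    exact ⟨c, fun g => hc' _ ⟨g, rfl⟩⟩
  choose c hc using h1
  have h2 : ∀ i j g, ‖ρ g i j‖ ≤ ∑ i, ∑ j, |c i j| := by
    intro i j g
    refine (hc i j g).trans ((le_abs_self _).trans ?_)
    refine le_trans ?_ (Finset.single_le_sum (f := fun i => ∑ j, |c i j|)
      (fun i _ => Finset.sum_nonneg fun j _ => abs_nonneg _) (Finset.mem_univ i))
    exact Finset.single_le_sum (f := fun j => |c i j|) (fun j _ => abs_nonneg _)
      (Finset.mem_univ j)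
  have h0 : 0 ≤ ∑ i, ∑ j, |c i j| :=
    Finset.sum_nonneg fun i _ => Finset.sum_nonneg fun j _ => abs_nonneg _
  refine ⟨n * (∑ i, ∑ j, |c i j|) + 1, by positivity, fun g x => ?_⟩
  have h3 := mulVec_norm_le (ρ g) h0 (fun i j => h2 i j g) x
  have h4 : 0 ≤ ‖x‖ := norm_nonneg x
  nlinarith

theorem rho_core (hB : Base H I) {κ : G → G} {ρ : G →* Matrix (Fin n) (Fin n) E}
    {b : Matrix (Fin n) (Fin n) E} (hρ : ConjDual p H I χ κ ρ b) {k : G} (hk : k ∈ core p H I) :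
    ρ k = 1 := by
  rw [← sub_eq_zero]
  ext i j
  rw [Matrix.zero_apply, ← norm_le_zero_iff]
  refine le_of_forall_pos_le_add fun ε hε => ?_
  obtain ⟨W, hW, hsm⟩ := small_rho hB ρ hρ.cont hρ.proP hρ.unram hε
  rw [zero_add]
  exact (hsm k (core_le hW hk) i j).le

theorem rho_N1 (hB : Base H I) {κ : G → G} {ρ : G →* Matrix (Fin n) (Fin n) E}
    {b : Matrix (Fin n) (Fin n) E} (hρ : ConjDual p H I χ κ ρ b) {ε : ℝ} (hε : 0 < ε) :
    ∃ W : Subgroup G, GoodG p H I W ∧ ∀ g, ∀ w ∈ W, ∀ x,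
      ‖ρ (g * w) *ᵥ x - ρ g *ᵥ x‖ ≤ ε * ‖x‖ := by
  obtain ⟨C, hC, hb⟩ := rho_bound hρ
  obtain ⟨W, hW, hsm⟩ := small_rho hB ρ hρ.cont hρ.proP hρ.unram
    (ε := ε / (C * (n + 1))) (by positivity)
  refine ⟨W, hW, fun g w hw x => ?_⟩
  have h1 : ρ (g * w) *ᵥ x - ρ g *ᵥ x = ρ g *ᵥ ((ρ w - 1) *ᵥ x) := by
    rw [map_mul, Matrix.sub_mulVec, Matrix.one_mulVec, Matrix.mulVec_sub, Matrix.mulVec_mulVec]
  rw [h1]
  have h2 := mulVec_norm_le (ρ w - 1) (c := ε / (C * (n + 1))) (by positivity)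
    (fun i j => (hsm w hw i j).le) x
  have h3 := hb g ((ρ w - 1) *ᵥ x)
  have h4 : 0 ≤ ‖x‖ := norm_nonneg x
  calc ‖ρ g *ᵥ ((ρ w - 1) *ᵥ x)‖ ≤ C * ‖(ρ w - 1) *ᵥ x‖ := h3
    _ ≤ C * ((n * (ε / (C * (n + 1)))) * ‖x‖) := by
        exact mul_le_mul_of_nonneg_left h2 hC.le
    _ = (n / (n + 1)) * ε * ‖x‖ := by
        field_simp
    _ ≤ 1 * ε * ‖x‖ := by
        have : (n : ℝ) / (n + 1) ≤ 1 := by
          rw [div_le_one (by positivity)]
          linarith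
        gcongr
    _ = ε * ‖x‖ := by ring

/-- the space of cocycles uniformly continuous for the good subgroups -/
noncomputable def Zgd (hB : Base H I) (p : ℕ) (ρ : G →* Matrix (Fin n) (Fin n) E) :
    Submodule E (G → Fin n → E) :=
  Zg (GoodG p H I) ⟨H, GoodG.top hB⟩ (fun h h' => GoodG.inf h h') ρ

theorem mem_Zgd {hB : Base H I} {ρ : G →* Matrix (Fin n) (Fin n) E} {X : G → Fin n → E} :
    X ∈ Zgd hB p ρ ↔ N1 (GoodG p H I) X ∧ ∀ g h, X (g * h) = X g + ρ g *ᵥ X h := Iff.rfl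

theorem zg_core {hB : Base H I} {ρ : G →* Matrix (Fin n) (Fin n) E} {X : G → Fin n → E}
    (hX : X ∈ Zgd hB p ρ) {k : G} (hk : k ∈ core p H I) : X k = 0 ∧ ∀ g, X (g * k) = X g := by
  have h1 : ∀ g, X (g * k) = X g := fun g => hX.1.core g hk
  refine ⟨?_, h1⟩
  have h2 : X 1 = 0 := by
    have h3 := hX.2 1 1
    rw [mul_one, map_one, Matrix.one_mulVec] at h3
    have h4 : X 1 + 0 = X 1 + X 1 := by rw [add_zero]; exact h3
    exact (add_left_cancel h4).symm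
  have h5 := h1 1
  rw [one_mul] at h5
  rw [h5, h2]

theorem zg_inertia {hB : Base H I} {ρ : G →* Matrix (Fin n) (Fin n) E} {X : G → Fin n → E}
    (hX : X ∈ Zgd hB p ρ) {σ : G} (hσ : σ ∈ I) : X σ = 0 :=
  (zg_core hX (inertia_le_core hσ)).1

theorem zg_continuous {hB : Base H I} {ρ : G →* Matrix (Fin n) (Fin n) E} {X : G → Fin n → E}
    (hX : X ∈ Zgd hB p ρ) : Continuous X := hX.1.continuous

theorem cob_mem (hB : Base H I) {κ : G → G} {ρ : G →* Matrix (Fin n) (Fin n) E}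
    {b : Matrix (Fin n) (Fin n) E} (hρ : ConjDual p H I χ κ ρ b) :
    Parity.coboundaries ρ ≤ Zgd hB p ρ := by
  rintro X ⟨v, hv⟩
  refine ⟨fun ε hε => ?_, fun g h => ?_⟩
  · obtain ⟨W, hW, hsm⟩ := rho_N1 hB hρ (ε := ε / (‖v‖ + 1)) (by positivity)
    refine ⟨W, hW, fun g w hw => ?_⟩
    have h1 : X (g * w) - X g = ρ (g * w) *ᵥ v - ρ g *ᵥ v := by
      rw [hv, hv]
      abel
    rw [h1]
    refine (hsm g w hw v).trans_lt ?_
    have h4 : 0 ≤ ‖v‖ := norm_nonneg v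
    rw [div_mul_eq_mul_div, div_lt_iff₀ (by positivity)]
    nlinarith
  · rw [hv, hv, hv, map_mul, Matrix.mulVec_sub, Matrix.mulVec_mulVec]
    abel

end Pool.Agent.Work.MP_787500_nt.Gn
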