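import Mathlib
import Pool.Agent.Work.MP_787500_nt.Gn.RhoB

/-!
Continuous cocycles that vanish on `I` are small on small good subgroups.
-/

set_option autoImplicit false
set_option linter.unusedSectionVars false

namespace Pool.Agent.Work.MP_787500_nt.Gn

open Matrix

variable {G : Type*} [Group G] [TopologicalSpace G] [IsTopologicalGroup G] [CompactSpace G]
variable {p : ℕ} [hp : Fact p.Prime] {H : Subgroup G} {I : Set G}
variable {E : Type*} [NormedField E] [NormedAlgebra ℚ_[p] E]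
variable {n : ℕ} {χ : G → E}

theorem norm_p (p : ℕ) [hp : Fact p.Prime] (E : Type*) [NormedField E] [NormedAlgebra ℚ_[p] E] :
    ‖(p : E)‖ = (p : ℝ)⁻¹ := by
  have h3 : (p : E) = algebraMap ℚ_[p] E p := (map_natCast (algebraMap ℚ_[p] E) p).symm
  rw [h3, norm_algebraMap', Padic.norm_p]

theorem sub_one_le [IsUltrametricDist E] {m : Type*}
    [Fintype m] [DecidableEq m] (A : Matrix m m E) {δ : ℝ} (hδ : 0 ≤ δ) (hδ1 : δ ≤ 1)
    (hA : ∀ i j, ‖(A - 1) i j‖ ≤ δ) (k : ℕ) (i j : m) : ‖(A ^ k - 1) i j‖ ≤ δ := by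
  induction k generalizing i j with
  | zero => simpa using hδ
  | succ k ih =>
    have h1 : A ^ (k + 1) - 1 = (A ^ k - 1) * (A - 1) + ((A ^ k - 1) + (A - 1)) := by
      rw [pow_succ]; noncomm_ring
    rw [h1, Matrix.add_apply, Matrix.add_apply]
    refine (IsUltrametricDist.norm_add_le_max _ _).trans (max_le ?_ ?_)
    · rw [Matrix.mul_apply]
      refine IsUltrametricDist.norm_sum_le_of_forall_le_of_nonneg hδ fun l _ => ?_
      rw [norm_mul]
      calc ‖(A ^ k - 1) i l‖ * ‖(A - 1) l j‖ ≤ 1 * ‖(A - 1) l j‖ :=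
            mul_le_mul_of_nonneg_right ((ih i l).trans hδ1) (norm_nonneg _)
        _ ≤ δ := by rw [one_mul]; exact hA l j
    · exact (IsUltrametricDist.norm_add_le_max _ _).trans (max_le (ih i j) (hA i j))

theorem sx_tendsto {ρ : G →* Matrix (Fin n) (Fin n) E} {X : G → Fin n → E} {σ : G}
    (hpro : Filter.Tendsto (fun k : ℕ => ρ (σ ^ p ^ k)) Filter.atTop (nhds 1))
    (hmul : ∀ g h, X (g * h) = X g + ρ g *ᵥ X h) :
    Filter.Tendsto (fun k : ℕ => X (σ ^ p ^ k)) Filter.atTop (nhds 0) := by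
  have hu := ultra p E
  have hnp := norm_p p E
  have hp2 : 2 ≤ p := hp.out.two_le
  have hX1 : X 1 = 0 := by
    have h1 := hmul 1 1
    rw [mul_one, map_one, one_mulVec] at h1
    have h2 : X 1 + 0 = X 1 + X 1 := by rw [add_zero]; exact h1
    exact (add_left_cancel h2).symm
  set δ : ℝ := (p : ℝ)⁻¹ with hδ
  have hp0 : (0 : ℝ) < p := by exact_mod_cast hp.out.pos
  have hδ0 : 0 < δ := inv_pos.2 hp0
  have hδ1 : δ < 1 := by
    rw [hδ]
    exact inv_lt_one_of_one_lt₀ (by exact_mod_cast hp.out.one_lt)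
  -- the representation is close to 1
  have hev : ∀ᶠ k : ℕ in Filter.atTop, ∀ i j, ‖(ρ (σ ^ p ^ k) - 1) i j‖ ≤ δ := by
    refine Filter.eventually_all.2 fun i => Filter.eventually_all.2 fun j => ?_
    have h3 : Filter.Tendsto (fun k : ℕ => (ρ (σ ^ p ^ k)) i j) Filter.atTop
        (nhds ((1 : Matrix (Fin n) (Fin n) E) i j)) :=
      (tendsto_pi_nhds.1 ((tendsto_pi_nhds.1 hpro) i)) j
    have h4 := (h3.sub_const ((1 : Matrix (Fin n) (Fin n) E) i j)).norm
    rw [sub_self, norm_zero] at h4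
    exact (h4.eventually_lt_const hδ0).mono fun _ h => h.le
  obtain ⟨j, hj⟩ := Filter.eventually_atTop.1 hev
  have hmv : ∀ (A : Matrix (Fin n) (Fin n) E) (Y : Fin n → E), (∀ i l, ‖A i l‖ ≤ δ) →
      ‖A *ᵥ Y‖ ≤ δ * ‖Y‖ := by
    intro A Y hA
    refine (pi_norm_le_iff_of_nonneg (by positivity)).2 fun i => ?_
    have h5 : ‖∑ l, A i l * Y l‖ ≤ δ * ‖Y‖ := by
      refine IsUltrametricDist.norm_sum_le_of_forall_le_of_nonneg (by positivity) fun l _ => ?_
      rw [norm_mul]
      exact mul_le_mul (hA i l) (norm_le_pi_norm Y l) (norm_nonneg _) hδ0.le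
    exact h5
  have hadd : ∀ (u v : Fin n → E) (c : ℝ), ‖u‖ ≤ c → ‖v‖ ≤ c → ‖u + v‖ ≤ c := by
    intro u v c hu' hv'
    refine (pi_norm_le_iff_of_nonneg ((norm_nonneg _).trans hu')).2 fun i => ?_
    exact (IsUltrametricDist.norm_add_le_max _ _).trans
      (max_le ((norm_le_pi_norm u i).trans hu') ((norm_le_pi_norm v i).trans hv'))
  have hstep : ∀ k ≥ j, ‖X (σ ^ p ^ (k + 1))‖ ≤ δ * ‖X (σ ^ p ^ k)‖ := by
    intro k hk
    set τ := σ ^ p ^ k with hτ
    have hcl : ∀ m : ℕ, ‖X (τ ^ m) - (m : E) • X τ‖ ≤ δ * ‖X τ‖ := by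
      intro m
      induction m with
      | zero =>
        rw [pow_zero, hX1, Nat.cast_zero, zero_smul, sub_zero, norm_zero]
        positivity
      | succ m ih =>
        have h1 : X (τ ^ (m + 1)) - ((m + 1 : ℕ) : E) • X τ =
            (X (τ ^ m) - (m : E) • X τ) + (ρ τ ^ m - 1) *ᵥ X τ := by
          rw [pow_succ, hmul, map_pow, Nat.cast_succ, add_smul, one_smul, sub_mulVec, one_mulVec]
          abel
        rw [h1]
        exact hadd _ _ _ ih (hmv _ _ fun i l =>
          sub_one_le (ρ τ) hδ0.le hδ1.le (hj k hk) m i l)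
    have h2 : σ ^ p ^ (k + 1) = τ ^ p := by rw [hτ, ← pow_mul, pow_succ]
    have h3 : X (τ ^ p) = (X (τ ^ p) - (p : E) • X τ) + (p : E) • X τ := by abel
    rw [h2, h3]
    refine hadd _ _ _ (hcl p) ?_
    rw [norm_smul, hnp]
  have hgeo : ∀ k, ‖X (σ ^ p ^ (j + k))‖ ≤ δ ^ k * ‖X (σ ^ p ^ j)‖ := by
    intro k
    induction k with
    | zero => simp
    | succ k ih =>
      calc ‖X (σ ^ p ^ (j + (k + 1)))‖ ≤ δ * ‖X (σ ^ p ^ (j + k))‖ := hstep (j + k) (by omega)
        _ ≤ δ * (δ ^ k * ‖X (σ ^ p ^ j)‖) := by gcongr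
        _ = δ ^ (k + 1) * ‖X (σ ^ p ^ j)‖ := by ring
  have h5 : Filter.Tendsto (fun k : ℕ => X (σ ^ p ^ (k + j))) Filter.atTop (nhds 0) := by
    refine squeeze_zero_norm (a := fun k => δ ^ k * ‖X (σ ^ p ^ j)‖) (fun k => ?_) ?_
    · rw [add_comm k j]; exact hgeo k
    · have := (tendsto_pow_atTop_nhds_zero_of_lt_one hδ0.le hδ1).mul_const ‖X (σ ^ p ^ j)‖
      rwa [zero_mul] at this
  exact (Filter.tendsto_add_atTop_iff_nat (f := fun k => X (σ ^ p ^ k)) j).1 h5

theorem small_x (hB : Base H I) {κ : G → G} {ρ : G →* Matrix (Fin n) (Fin n) E}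
    {b : Matrix (Fin n) (Fin n) E} (hρ : ConjDual p H I χ κ ρ b) {X : G → Fin n → E}
    (hX : Continuous X) (hmul : ∀ g h, X (g * h) = X g + ρ g *ᵥ X h)
    (hin : ∀ σ ∈ I, X σ = 0) : X ∈ Zgd hB p ρ := by
  classical
  have hX1 : X 1 = 0 := by
    have h1 := hmul 1 1
    rw [mul_one, map_one, one_mulVec] at h1
    have h2 : X 1 + 0 = X 1 + X 1 := by rw [add_zero]; exact h1
    exact (add_left_cancel h2).symm
  let r : G →* Matrix (Fin n ⊕ Unit) (Fin n ⊕ Unit) E :=
    { toFun := fun g => fromBlocks (ρ g) (Matrix.of fun i _ => X g i) 0 1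
      map_one' := by
        have h1 : (Matrix.of fun (i : Fin n) (_ : Unit) => X 1 i) = 0 := by
          ext i j; simp [hX1]
        rw [h1, map_one, fromBlocks_one]
      map_mul' := fun g h => by
        rw [fromBlocks_multiply]
        congr 1
        · rw [map_mul]; simp
        · ext i j
          simp only [Matrix.of_apply, Matrix.add_apply, Matrix.mul_one, hmul g h, Pi.add_apply]
          rw [add_comm]
          rfl
        · simp
        · simp }
  have hr : ∀ g, r g = fromBlocks (ρ g) (Matrix.of fun i _ => X g i) 0 1 := fun g => rfl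
  have hrc : Continuous r := by
    show Continuous fun g => fromBlocks (ρ g) (Matrix.of fun i (_ : Unit) => X g i) 0 1
    refine Continuous.matrix_fromBlocks hρ.cont ?_ continuous_const continuous_const
    exact continuous_matrix fun i _ => (continuous_apply i).comp hX
  have hpro : ∀ σ ∈ H, Filter.Tendsto (fun k : ℕ => r (σ ^ p ^ k)) Filter.atTop (nhds 1) := by
    intro σ hσ
    have h1 := sx_tendsto (hρ.proP σ hσ) hmul
    have h2 : Filter.Tendsto (fun k : ℕ => (Matrix.of fun (i : Fin n) (_ : Unit) => X (σ ^ p ^ k) i :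
        Matrix (Fin n) Unit E)) Filter.atTop (nhds 0) := by
      refine tendsto_pi_nhds.2 fun i => tendsto_pi_nhds.2 fun _ => ?_
      exact (tendsto_pi_nhds.1 h1) i
    have h3 : (1 : Matrix (Fin n ⊕ Unit) (Fin n ⊕ Unit) E) = fromBlocks 1 0 0 1 :=
      fromBlocks_one.symm
    rw [h3]
    have h4 : Continuous fun p : Matrix (Fin n) (Fin n) E × Matrix (Fin n) Unit E =>
        fromBlocks p.1 p.2 (0 : Matrix Unit (Fin n) E) (1 : Matrix Unit Unit E) :=
      Continuous.matrix_fromBlocks continuous_fst continuous_snd continuous_const continuous_const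
    exact (h4.tendsto ((1 : Matrix (Fin n) (Fin n) E), (0 : Matrix (Fin n) Unit E))).comp
      ((hρ.proP σ hσ).prodMk_nhds h2)
  have hun : ∀ σ ∈ I, r σ = 1 := by
    intro σ hσ
    have h1 : (Matrix.of fun (i : Fin n) (_ : Unit) => X σ i) = (0 : Matrix (Fin n) Unit E) := by
      ext i j; simp [hin σ hσ]
    rw [hr, h1, hρ.unram σ hσ, fromBlocks_one]
  obtain ⟨C, hC, hb⟩ := rho_bound hρ
  refine ⟨fun ε hε => ?_, hmul⟩
  obtain ⟨W, hW, hWs⟩ := small_rho hB r hrc hpro hun (ε := ε / C) (by positivity)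
  refine ⟨W, hW, fun g w hw => ?_⟩
  have h1 : X (g * w) - X g = ρ g *ᵥ X w := by rw [hmul, add_sub_cancel_left]
  have h2 : ‖X w‖ < ε / C := by
    refine (pi_norm_lt_iff (by positivity)).2 fun i => ?_
    have h3 := hWs w hw (Sum.inl i) (Sum.inr ())
    rw [hr, Matrix.sub_apply, fromBlocks_apply₁₂] at h3
    simpa using h3
  rw [h1]
  calc ‖ρ g *ᵥ X w‖ ≤ C * ‖X w‖ := hb g _
    _ < C * (ε / C) := by gcongr
    _ = ε := by field_simp

end Pool.Agent.Work.MP_787500_nt.Gn
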