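import Mathlib
import Pool.Agent.Work.MP_787500_nt.Gn.Defs

/-!
Compactness: the decomposition group maps onto the quotient by the core; descent of functions.
-/

set_option autoImplicit false
set_option linter.unusedSectionVars false

namespace Pool.Agent.Work.MP_787500_nt.Gn

variable {G : Type*} [Group G] [TopologicalSpace G] [IsTopologicalGroup G] [CompactSpace G]
variable {p : ℕ} {H : Subgroup G} {I : Set G} {D : Subgroup G}

theorem mul_core (hS : Setup p H I D) (g : G) : ∃ d ∈ D, d⁻¹ * g ∈ core p H I := by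
  let t : {W : Subgroup G // GoodG p H I W} → Set G := fun W =>
    (D : Set G) ∩ {d | d⁻¹ * g ∈ W.1}
  have hcl : ∀ W, IsClosed (t W) := fun W =>
    hS.closed.inter ((Subgroup.isClosed_of_isOpen W.1 W.2.isOpen).preimage
      (continuous_inv.mul continuous_const))
  have hne : Nonempty {W : Subgroup G // GoodG p H I W} := ⟨⟨H, GoodG.top hS.toBase⟩⟩
  have h := IsCompact.nonempty_iInter_of_directed_nonempty_isCompact_isClosed t
    (fun W W' => ⟨⟨W.1 ⊓ W'.1, W.2.inf W'.2⟩, fun d hd => ⟨hd.1, hd.2.1⟩,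
      fun d hd => ⟨hd.1, hd.2.2⟩⟩)
    (fun W => by
      obtain ⟨d, hd, hd'⟩ := hS.top W.1 W.2 g
      exact ⟨d, hd, hd'⟩)
    (fun W => (hcl W).isCompact) hcl
  obtain ⟨d, hd⟩ := h
  rw [Set.mem_iInter] at hd
  refine ⟨d, (hd ⟨H, GoodG.top hS.toBase⟩).1, ?_⟩
  rw [core, Subgroup.mem_sInf]
  intro W hW
  exact (hd ⟨W, hW⟩).2

theorem stab (hS : Setup p H I D) {U' : Subgroup G} (hU' : IsOpen (U' : Set G)) :
    ∃ W : Subgroup G, GoodG p H I W ∧ ∀ d ∈ D ⊓ W, ∃ d₀ ∈ D ⊓ core p H I, d₀⁻¹ * d ∈ U' := by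
  by_contra hcon
  push Not at hcon
  let C : Set G := {d | d ∈ D ∧ ∀ d₀ ∈ D ⊓ core p H I, d₀⁻¹ * d ∉ U'}
  have hC : IsClosed C := by
    have h1 : C = (D : Set G) ∩
        ⋂ d₀ : ↥(D ⊓ core p H I), {d : G | (d₀ : G)⁻¹ * d ∈ U'}ᶜ := by
      ext d
      simp only [C, Set.mem_ofPred_eq, Set.mem_inter_iff, Set.mem_iInter, Set.mem_compl_iff,
        SetLike.mem_coe, Subtype.forall]
    rw [h1]
    refine hS.closed.inter (isClosed_iInter fun d₀ => ?_)
    exact (hU'.preimage (continuous_const.mul continuous_id)).isClosed_compl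
  let t : {W : Subgroup G // GoodG p H I W} → Set G := fun W => C ∩ W.1
  have hcl : ∀ W, IsClosed (t W) := fun W =>
    hC.inter (Subgroup.isClosed_of_isOpen W.1 W.2.isOpen)
  have hne : Nonempty {W : Subgroup G // GoodG p H I W} := ⟨⟨H, GoodG.top hS.toBase⟩⟩
  have h := IsCompact.nonempty_iInter_of_directed_nonempty_isCompact_isClosed t
    (fun W W' => ⟨⟨W.1 ⊓ W'.1, W.2.inf W'.2⟩, fun d hd => ⟨hd.1, hd.2.1⟩,
      fun d hd => ⟨hd.1, hd.2.2⟩⟩)
    (fun W => by
      obtain ⟨d, hd, hd'⟩ := hcon W.1 W.2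
      exact ⟨d, ⟨hd.1, hd'⟩, hd.2⟩)
    (fun W => (hcl W).isCompact) hcl
  obtain ⟨d, hd⟩ := h
  rw [Set.mem_iInter] at hd
  have h1 : d ∈ C := (hd ⟨H, GoodG.top hS.toBase⟩).1
  have h2 : d ∈ core p H I := by
    rw [core, Subgroup.mem_sInf]
    intro W hW
    exact (hd ⟨W, hW⟩).2
  refine h1.2 d ⟨h1.1, h2⟩ ?_
  rw [inv_mul_cancel]
  exact U'.one_mem

/-- Uniform continuity on the compact group. -/
theorem stab_unif
    (hbasis : ∀ O ∈ nhds (1 : G), ∃ U : Subgroup G, IsOpen (U : Set G) ∧ (U : Set G) ⊆ O)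
    {D : Subgroup G} (hD : IsClosed (D : Set G))
    {A : Type*} [NormedAddCommGroup A] (z : D → A) (hz : Continuous z) {ε : ℝ} (hε : 0 < ε) :
    ∃ U' : Subgroup G, IsOpen (U' : Set G) ∧
      ∀ d u : D, (u : G) ∈ U' → ‖z (d * u) - z d‖ < ε := by
  have hcomp : CompactSpace D := isCompact_iff_compactSpace.1 hD.isCompact
  have hloc : ∀ d : D, ∃ U : Subgroup G, IsOpen (U : Set G) ∧
      ∀ x : D, (d : G)⁻¹ * x ∈ U → ‖z x - z d‖ < ε / 2 := by
    intro d
    have h1 : {x : D | ‖z x - z d‖ < ε / 2} ∈ nhds d := by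
      have h2 : Continuous fun x : D => ‖z x - z d‖ := (hz.sub continuous_const).norm
      refine (isOpen_lt h2 continuous_const).mem_nhds ?_
      show ‖z d - z d‖ < ε / 2
      rw [sub_self, norm_zero]
      exact half_pos hε
    rw [nhds_subtype_eq_comap, Filter.mem_comap] at h1
    obtain ⟨O, hO, hO'⟩ := h1
    have h3 : {g : G | (d : G) * g ∈ O} ∈ nhds (1 : G) := by
      have h4 : Filter.Tendsto (fun g : G => (d : G) * g) (nhds 1)
          (nhds ((d : G) * 1)) := (continuous_const.mul continuous_id).tendsto 1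
      rw [mul_one] at h4
      exact h4 hO
    obtain ⟨E, hE1, hE2⟩ := hbasis _ h3
    refine ⟨E, hE1, fun x hx => ?_⟩
    apply hO'
    have h5 := hE2 hx
    simp only [Set.mem_ofPred_eq, mul_inv_cancel_left] at h5
    exact h5
  choose U hU1 hU2 using hloc
  obtain ⟨t, ht⟩ := isCompact_univ.elim_finite_subcover
    (fun d : D => {x : D | (d : G)⁻¹ * x ∈ U d})
    (fun d => (hU1 d).preimage (continuous_const.mul continuous_subtype_val))
    (fun d _ => Set.mem_iUnion.2 ⟨d, by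
      show (d : G)⁻¹ * d ∈ U d
      rw [inv_mul_cancel]
      exact (U d).one_mem⟩)
  refine ⟨⨅ d ∈ t, U d, ?_, fun d u hu => ?_⟩
  · have : ((⨅ d ∈ t, U d : Subgroup G) : Set G) =
        ⋂ d ∈ t, (U d : Set G) := by
      simp only [Subgroup.coe_iInf]
    rw [this]
    exact isOpen_biInter_finset fun d _ => hU1 d
  · have h1 := ht (Set.mem_univ d)
    rw [Set.mem_iUnion₂] at h1
    obtain ⟨e, he, hd⟩ := h1
    have hd' : (e : G)⁻¹ * d ∈ U e := hd
    have hu' : (u : G) ∈ U e := by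
      have := (Subgroup.mem_iInf.1 hu) e
      exact (Subgroup.mem_iInf.1 this) he
    have h2 := hU2 e d hd'
    have h3 := hU2 e (d * u) (by
      have := (U e).mul_mem hd' hu'
      rwa [mul_assoc] at this)
    have h4 : z (d * u) - z d = (z (d * u) - z e) - (z d - z e) := by abel
    rw [h4]
    have h5 := norm_sub_le (z (d * u) - z e) (z d - z e)
    linarith

theorem descend (hS : Setup p H I D) {A : Type*} [NormedAddCommGroup A] (z : D → A)
    (hz : Continuous z)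
    (hk : ∀ d k : D, (k : G) ∈ core p H I → z (d * k) = z d) :
    ∃ Z : G → A, N1 (GoodG p H I) Z ∧ (∀ d : D, Z d = z d) ∧
      ∀ g, ∀ k ∈ core p H I, Z (g * k) = Z g := by
  have hn : (core p H I).Normal := core_normal
  choose δ hδ1 hδ2 using fun g => mul_core hS g
  let Z : G → A := fun g => z ⟨δ g, hδ1 g⟩
  have key : ∀ (g : G) (d : D), (d : G)⁻¹ * g ∈ core p H I → Z g = z d := by
    intro g d hd
    have h1 : (d : G)⁻¹ * δ g ∈ core p H I := by
      have := (core p H I).mul_mem hd ((core p H I).inv_mem (hδ2 g))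
      rw [_root_.mul_inv_rev, inv_inv] at this
      simpa [mul_assoc] using this
    have h2 := hk d ⟨(d : G)⁻¹ * δ g, D.mul_mem (D.inv_mem d.2) (hδ1 g)⟩ h1
    rw [← h2]
    show z _ = z _
    congr 1
    apply Subtype.ext
    show δ g = (d : G) * ((d : G)⁻¹ * δ g)
    rw [mul_inv_cancel_left]
  refine ⟨Z, ?_, fun d => key d d (by rw [inv_mul_cancel]; exact (core p H I).one_mem), ?_⟩
  · intro ε hε
    obtain ⟨U', hU', hu⟩ := stab_unif hS.basis hS.closed z hz hε
    obtain ⟨W, hW, hst⟩ := stab hS hU'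
    refine ⟨W, hW, fun g w hw => ?_⟩
    -- write g = d k, w = d' k'
    have hdW : δ w ∈ W := by
      have h1 : (δ w)⁻¹ * w ∈ W := core_le hW (hδ2 w)
      have h2 := W.mul_mem h1 (W.inv_mem hw)
      rw [mul_assoc, mul_inv_cancel, mul_one] at h2
      exact (W.inv_mem_iff).1 h2
    obtain ⟨d₀, hd₀, hd₀'⟩ := hst (δ w) ⟨hδ1 w, hdW⟩
    have e1 : Z (g * w) = z (⟨δ g, hδ1 g⟩ * ⟨d₀, hd₀.1⟩ *
        ⟨d₀⁻¹ * δ w, D.mul_mem (D.inv_mem hd₀.1) (hδ1 w)⟩) := by
      apply key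
      show (δ g * d₀ * (d₀⁻¹ * δ w))⁻¹ * (g * w) ∈ core p H I
      have h3 : (δ g * d₀ * (d₀⁻¹ * δ w))⁻¹ * (g * w) =
          ((δ w)⁻¹ * ((δ g)⁻¹ * g) * δ w) * ((δ w)⁻¹ * w) := by group
      rw [h3]
      refine (core p H I).mul_mem ?_ (hδ2 w)
      have := hn.conj_mem _ (hδ2 g) (δ w)⁻¹
      rwa [inv_inv] at this
    have e2 : Z g = z (⟨δ g, hδ1 g⟩ * ⟨d₀, hd₀.1⟩) := by
      apply key
      show (δ g * d₀)⁻¹ * g ∈ core p H I
      have h3 : (δ g * d₀)⁻¹ * g = d₀⁻¹ * ((δ g)⁻¹ * g) := by group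
      rw [h3]
      exact (core p H I).mul_mem ((core p H I).inv_mem hd₀.2) (hδ2 g)
    rw [e1, e2]
    exact hu _ _ hd₀'
  · intro g k hk'
    have := key (g * k) ⟨δ g, hδ1 g⟩ (by
      show (δ g)⁻¹ * (g * k) ∈ core p H I
      rw [← mul_assoc]
      exact (core p H I).mul_mem (hδ2 g) hk')
    exact this

end Pool.Agent.Work.MP_787500_nt.Gn
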