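import Mathlib
import Pool.Agent.Work.MP_787500_nt.Gn.RhoB

/-!
The cup product is a continuous cocycle.
-/

set_option autoImplicit false
set_option linter.unusedSectionVars false

namespace Pool.Agent.Work.MP_787500_nt.Gn

open Matrix

variable {G : Type*} [Group G] [TopologicalSpace G] [IsTopologicalGroup G] [CompactSpace G]
variable {p : ℕ} [hp : Fact p.Prime] {H : Subgroup G} {I : Set G}
variable {E : Type*} [NormedField E] [NormedAlgebra ℚ_[p] E]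
variable {n : ℕ} {χ : G → E}

theorem pair_bound (b : Matrix (Fin n) (Fin n) E) :
    ∃ C : ℝ, 0 ≤ C ∧ ∀ x y : Fin n → E, ‖x ⬝ᵥ (b *ᵥ y)‖ ≤ C * ‖x‖ * ‖y‖ := by
  refine ⟨∑ i, ∑ j, ‖b i j‖, Finset.sum_nonneg fun i _ => Finset.sum_nonneg fun j _ =>
    norm_nonneg _, fun x y => ?_⟩
  simp only [mulVec, dotProduct]
  calc ‖∑ i, x i * ∑ j, b i j * y j‖ ≤ ∑ i, ‖x i * ∑ j, b i j * y j‖ := norm_sum_le _ _
    _ ≤ ∑ i, ‖x‖ * ∑ j, ‖b i j‖ * ‖y‖ := by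
        refine Finset.sum_le_sum fun i _ => ?_
        rw [norm_mul]
        refine mul_le_mul (norm_le_pi_norm x i) ?_ (norm_nonneg _) (norm_nonneg _)
        refine (norm_sum_le _ _).trans (Finset.sum_le_sum fun j _ => ?_)
        rw [norm_mul]
        exact mul_le_mul_of_nonneg_left (norm_le_pi_norm y j) (norm_nonneg _)
    _ = (∑ i, ∑ j, ‖b i j‖) * ‖x‖ * ‖y‖ := by
        simp only [← Finset.sum_mul, ← Finset.mul_sum]
        ring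

theorem pair_rho {κ : G → G} {ρ : G →* Matrix (Fin n) (Fin n) E}
    {b : Matrix (Fin n) (Fin n) E} (hρ : ConjDual p H I χ κ ρ b) (g : G) (x y : Fin n → E) :
    (ρ g *ᵥ x) ⬝ᵥ (b *ᵥ (ρ (κ g) *ᵥ y)) = χ g * (x ⬝ᵥ (b *ᵥ y)) := by
  have h1 : (ρ g *ᵥ x) ⬝ᵥ (b *ᵥ (ρ (κ g) *ᵥ y)) = x ⬝ᵥ (((ρ g)ᵀ * b * ρ (κ g)) *ᵥ y) := by
    rw [← Matrix.mulVec_mulVec, ← Matrix.mulVec_mulVec, Matrix.dotProduct_mulVec x (ρ g)ᵀ,
      Matrix.vecMul_transpose]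
  rw [h1, hρ.dual, Matrix.smul_mulVec, dotProduct_smul, smul_eq_mul]

theorem pair_symm {κ : G → G} {ρ : G →* Matrix (Fin n) (Fin n) E}
    {b : Matrix (Fin n) (Fin n) E} (hρ : ConjDual p H I χ κ ρ b) (x y : Fin n → E) :
    x ⬝ᵥ (b *ᵥ y) = y ⬝ᵥ (b *ᵥ x) := by
  rw [Matrix.dotProduct_mulVec, ← Matrix.mulVec_transpose, hρ.symm, dotProduct_comm]

theorem bdd_of_n1 {P : G → Fin n → E} (hP : N1 (GoodG p H I) P) :
    ∃ C : ℝ, 0 ≤ C ∧ ∀ g, ‖P g‖ ≤ C := by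
  obtain ⟨c, hc'⟩ := (isCompact_range hP.continuous).isBounded.exists_norm_le
  exact ⟨|c|, abs_nonneg c, fun g => (hc' _ ⟨g, rfl⟩).trans (le_abs_self c)⟩

theorem n1_comp {κ : G → G} (hi : IsInvol (GoodG p H I) χ κ)
    {A : Type*} [NormedAddCommGroup A]
    {P : G → A} (hP : N1 (GoodG p H I) P) : N1 (GoodG p H I) (fun g => P (κ g)) := by
  intro ε hε
  obtain ⟨W, hW, hsm⟩ := hP ε hε
  obtain ⟨W', hW', hk⟩ := hi.sys W hW
  refine ⟨W', hW', fun g w hw => ?_⟩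
  simp only [hi.mul]
  exact hsm _ _ (hk w hw)

theorem n1_pair (b : Matrix (Fin n) (Fin n) E) {P Q : G → Fin n → E}
    (hP : N1 (GoodG p H I) P) (hQ : N1 (GoodG p H I) Q) :
    N1 (GoodG p H I) (fun g => P g ⬝ᵥ (b *ᵥ Q g)) := by
  obtain ⟨C, hC, hb⟩ := pair_bound b
  obtain ⟨A, hA, hPb⟩ := bdd_of_n1 hP
  obtain ⟨B, hB, hQb⟩ := bdd_of_n1 hQ
  intro ε hε
  set M : ℝ := C * (A + B) + 1 with hM
  have hM0 : 0 < M := by positivity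
  obtain ⟨W, hW, hsm⟩ := hP (ε / M) (by positivity)
  obtain ⟨W', hW', hsm'⟩ := hQ (ε / M) (by positivity)
  refine ⟨W ⊓ W', hW.inf hW', fun g w hw => ?_⟩
  have h1 : P (g * w) ⬝ᵥ (b *ᵥ Q (g * w)) - P g ⬝ᵥ (b *ᵥ Q g) =
      (P (g * w) - P g) ⬝ᵥ (b *ᵥ Q (g * w)) + P g ⬝ᵥ (b *ᵥ (Q (g * w) - Q g)) := by
    rw [Matrix.mulVec_sub, sub_dotProduct, dotProduct_sub]
    ring
  rw [h1]
  have h2 := hb (P (g * w) - P g) (Q (g * w))
  have h3 := hb (P g) (Q (g * w) - Q g)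
  have h4 := (hsm g w hw.1).le
  have h5 := (hsm' g w hw.2).le
  have h6 : C * ‖P (g * w) - P g‖ * ‖Q (g * w)‖ ≤ C * (ε / M) * B :=
    mul_le_mul (mul_le_mul_of_nonneg_left h4 hC) (hQb _) (norm_nonneg _) (by positivity)
  have h7 : C * ‖P g‖ * ‖Q (g * w) - Q g‖ ≤ C * A * (ε / M) :=
    mul_le_mul (mul_le_mul_of_nonneg_left (hPb _) hC) h5 (norm_nonneg _) (by positivity)
  have h8 : C * (ε / M) * B + C * A * (ε / M) = (M - 1) * (ε / M) := by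
    rw [hM]
    ring
  have h9 : (M - 1) * (ε / M) < ε := by
    rw [mul_div_assoc', div_lt_iff₀ hM0]
    nlinarith
  calc ‖(P (g * w) - P g) ⬝ᵥ (b *ᵥ Q (g * w)) + P g ⬝ᵥ (b *ᵥ (Q (g * w) - Q g))‖
      ≤ ‖(P (g * w) - P g) ⬝ᵥ (b *ᵥ Q (g * w))‖ + ‖P g ⬝ᵥ (b *ᵥ (Q (g * w) - Q g))‖ :=
        norm_add_le _ _
    _ < ε := by linarith

theorem om_ZE (hB' : Base H I) {κ : G → G} (hi : IsInvol (GoodG p H I) χ κ)
    {ρ : G →* Matrix (Fin n) (Fin n) E} {b : Matrix (Fin n) (Fin n) E}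
    (hρ : ConjDual p H I χ κ ρ b) {X Y : G → Fin n → E} (hX : X ∈ Zgd hB' p ρ)
    (hY : Y ∈ Zgd hB' p ρ) :
    ZE (GoodG p H I) χ (om κ ρ b X Y) := by
  constructor
  · obtain ⟨Cb, hCb, hb⟩ := pair_bound b
    obtain ⟨A, hA, hXb⟩ := bdd_of_n1 hX.1
    obtain ⟨B, hB, hYb⟩ := bdd_of_n1 hY.1
    obtain ⟨C, hC, hr⟩ := rho_bound hρ
    intro ε hε
    set M : ℝ := Cb * (C * B + A * B + A * C) + 1 with hM
    have hM0 : 0 < M := by positivity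
    obtain ⟨W1, hW1, hs1⟩ := hX.1 (ε / M) (by positivity)
    obtain ⟨W2, hW2, hs2⟩ := rho_N1 hB' hρ (ε := ε / M) (by positivity)
    obtain ⟨W3, hW3, hs3⟩ := hi.sys W2 hW2
    obtain ⟨W4, hW4, hs4⟩ := n1_comp hi hY.1 (ε / M) (by positivity)
    refine ⟨W1 ⊓ (W3 ⊓ W4), hW1.inf (hW3.inf hW4),
      fun g h w hw w' hw' => ?_⟩
    have h1 : om κ ρ b X Y (g * w) (h * w') - om κ ρ b X Y g h =
        (X (g * w) - X g) ⬝ᵥ (b *ᵥ (ρ (κ (g * w)) *ᵥ Y (κ (h * w')))) +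
        X g ⬝ᵥ (b *ᵥ (ρ (κ g * κ w) *ᵥ Y (κ (h * w')) - ρ (κ g) *ᵥ Y (κ (h * w')))) +
        X g ⬝ᵥ (b *ᵥ (ρ (κ g) *ᵥ (Y (κ (h * w')) - Y (κ h)))) := by
      simp only [om, hi.mul, Matrix.mulVec_sub, sub_dotProduct, dotProduct_sub]
      ring
    rw [h1]
    have h2 := hb (X (g * w) - X g) (ρ (κ (g * w)) *ᵥ Y (κ (h * w')))
    have h3 := hb (X g) (ρ (κ g * κ w) *ᵥ Y (κ (h * w')) - ρ (κ g) *ᵥ Y (κ (h * w')))
    have h4 := hb (X g) (ρ (κ g) *ᵥ (Y (κ (h * w')) - Y (κ h)))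
    have e1 := (hs1 g w hw.1).le
    have e2 := hs2 (κ g) (κ w) (hs3 w hw.2.1) (Y (κ (h * w')))
    have e3 := (hs4 h w' hw'.2.2).le
    have e4 := hr (κ (g * w)) (Y (κ (h * w')))
    have e5 := hr (κ g) (Y (κ (h * w')) - Y (κ h))
    have e6 : C * ‖Y (κ (h * w'))‖ ≤ C * B := mul_le_mul_of_nonneg_left (hYb _) hC.le
    have e7 : ε / M * ‖Y (κ (h * w'))‖ ≤ ε / M * B :=
      mul_le_mul_of_nonneg_left (hYb _) (by positivity)
    have e8 : C * ‖Y (κ (h * w')) - Y (κ h)‖ ≤ C * (ε / M) :=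
      mul_le_mul_of_nonneg_left e3 hC.le
    have f1 : Cb * ‖X (g * w) - X g‖ * ‖ρ (κ (g * w)) *ᵥ Y (κ (h * w'))‖ ≤
        Cb * (ε / M) * (C * B) :=
      mul_le_mul (mul_le_mul_of_nonneg_left e1 hCb) (e4.trans e6) (norm_nonneg _) (by positivity)
    have f2 : Cb * ‖X g‖ * ‖ρ (κ g * κ w) *ᵥ Y (κ (h * w')) - ρ (κ g) *ᵥ Y (κ (h * w'))‖ ≤
        Cb * A * (ε / M * B) :=
      mul_le_mul (mul_le_mul_of_nonneg_left (hXb _) hCb) (e2.trans e7) (norm_nonneg _)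
        (by positivity)
    have f3 : Cb * ‖X g‖ * ‖ρ (κ g) *ᵥ (Y (κ (h * w')) - Y (κ h))‖ ≤
        Cb * A * (C * (ε / M)) :=
      mul_le_mul (mul_le_mul_of_nonneg_left (hXb _) hCb) (e5.trans e8) (norm_nonneg _)
        (by positivity)
    have f4 : Cb * (ε / M) * (C * B) + Cb * A * (ε / M * B) + Cb * A * (C * (ε / M)) =
        (M - 1) * (ε / M) := by
      rw [hM]
      ring
    have f5 : (M - 1) * (ε / M) < ε := by
      rw [mul_div_assoc', div_lt_iff₀ hM0]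
      nlinarith
    refine (norm_add₃_le).trans_lt ?_
    linarith
  · intro g h k
    simp only [om, hX.2, hY.2, hi.mul, map_mul, Matrix.mulVec_add, add_dotProduct, dotProduct_add,
      ← Matrix.mulVec_mulVec, pair_rho hρ]
    ring

theorem om_anti (hB' : Base H I) {κ : G → G} (hi : IsInvol (GoodG p H I) χ κ)
    {ρ : G →* Matrix (Fin n) (Fin n) E} {b : Matrix (Fin n) (Fin n) E}
    (hρ : ConjDual p H I χ κ ρ b) {X Y : G → Fin n → E} (hX : X ∈ Zgd hB' p ρ)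
    (hY : Y ∈ Zgd hB' p ρ) :
    BE (GoodG p H I) χ (fun g h => om κ ρ b Y X g h + om κ ρ b X Y (κ g) (κ h)) := by
  refine ⟨fun g => -(Y g ⬝ᵥ (b *ᵥ X (κ g))), ?_, ?_⟩
  · intro ε hε
    obtain ⟨W, hW, hsm⟩ := n1_pair b hY.1 (n1_comp hi hX.1) ε hε
    refine ⟨W, hW, fun g w hw => ?_⟩
    rw [neg_sub_neg, norm_sub_rev]
    exact hsm g w hw
  · funext g h
    simp only [dE, om, hX.2, hY.2, hi.mul, hi.inv, Matrix.mulVec_add, add_dotProduct,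
      dotProduct_add, pair_rho hρ]
    rw [pair_symm hρ (X (κ g)) (ρ g *ᵥ Y h)]
    ring

theorem om_cob (hB' : Base H I) {κ : G → G} (hi : IsInvol (GoodG p H I) χ κ)
    {ρ : G →* Matrix (Fin n) (Fin n) E} {b : Matrix (Fin n) (Fin n) E}
    (hρ : ConjDual p H I χ κ ρ b) {Y : G → Fin n → E} (hY : Y ∈ Zgd hB' p ρ) (x : Fin n → E) :
    BE (GoodG p H I) χ (om κ ρ b Y (fun g => ρ g *ᵥ x - x)) := by
  have hQ : N1 (GoodG p H I) (fun g => ρ g *ᵥ x) := by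
    intro ε hε
    obtain ⟨W, hW, hsm⟩ := rho_N1 hB' hρ (ε := ε / (‖x‖ + 1)) (by positivity)
    refine ⟨W, hW, fun g w hw => (hsm g w hw x).trans_lt ?_⟩
    have h4 : 0 ≤ ‖x‖ := norm_nonneg x
    rw [div_mul_eq_mul_div, div_lt_iff₀ (by positivity)]
    nlinarith
  refine ⟨fun g => -(Y g ⬝ᵥ (b *ᵥ (ρ (κ g) *ᵥ x))), ?_, ?_⟩
  · intro ε hε
    obtain ⟨W, hW, hsm⟩ := n1_pair b hY.1 (n1_comp hi hQ) ε hε
    refine ⟨W, hW, fun g w hw => ?_⟩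
    rw [neg_sub_neg, norm_sub_rev]
    exact hsm g w hw
  · funext g h
    simp only [dE, om, hY.2, hi.mul, map_mul, Matrix.mulVec_sub, add_dotProduct,
      dotProduct_sub, ← Matrix.mulVec_mulVec, pair_rho hρ]
    ring

end Pool.Agent.Work.MP_787500_nt.Gn
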