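import Mathlib
import Pool.Agent.Work.MP_787500_nt.Gn.Stab

/-!
There are no homomorphisms on the kernel of the decomposition group.
-/

set_option autoImplicit false
set_option linter.unusedSectionVars false

namespace Pool.Agent.Work.MP_787500_nt.Gn

variable {G : Type*} [Group G] [TopologicalSpace G] [IsTopologicalGroup G] [CompactSpace G]
variable {p : ℕ} [hp : Fact p.Prime] {H : Subgroup G} {I : Set G} {D : Subgroup G}

theorem no_hom (hS : Setup p H I D) (μ : G → ZMod p)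
    (hmul : ∀ g ∈ D ⊓ core p H I, ∀ h ∈ D ⊓ core p H I, μ (g * h) = μ g + μ h)
    (hcont : ∃ U' : Subgroup G, IsOpen (U' : Set G) ∧
      ∀ g ∈ D ⊓ core p H I ⊓ U', μ g = 0) {g : G} (hg : g ∈ D ⊓ core p H I) :
    μ g = 0 := by
  classical
  obtain ⟨U', hU', hμ0⟩ := hcont
  have hfin : Finite (G ⧸ U') := Subgroup.quotient_finite_of_isOpen U' hU'
  have hfi : U'.FiniteIndex := Subgroup.finiteIndex_of_finite_quotient
  have hN1 : IsClosed (U'.normalCore : Set G) :=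
    Subgroup.normalCore_isClosed U' (Subgroup.isClosed_of_isOpen U' hU')
  have hN : IsOpen (U'.normalCore : Set G) :=
    Subgroup.isOpen_of_isClosed_of_finiteIndex _ hN1
  have hNle : U'.normalCore ≤ U' := U'.normalCore_le
  have hNn : U'.normalCore.Normal := U'.normalCore_normal
  obtain ⟨W, hW, hst⟩ := stab hS hN
  choose! δ hδ1 hδ2 using hst
  let lam : G → ZMod p := fun g => if g ∈ D ⊓ W then μ (δ g) else 0
  have key : ∀ g ∈ D ⊓ W, ∀ d₀ ∈ D ⊓ core p H I, d₀⁻¹ * g ∈ U'.normalCore →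
      lam g = μ d₀ := by
    intro g hg d₀ hd₀ hd
    have h1 : lam g = μ (δ g) := if_pos hg
    have h2 : d₀⁻¹ * δ g ∈ D ⊓ core p H I :=
      (D ⊓ core p H I).mul_mem ((D ⊓ core p H I).inv_mem hd₀) (hδ1 g hg)
    have h3 : d₀⁻¹ * δ g ∈ U'.normalCore := by
      have := U'.normalCore.mul_mem hd (U'.normalCore.inv_mem (hδ2 g hg))
      rw [_root_.mul_inv_rev, inv_inv] at this
      simpa [mul_assoc] using this
    have h4 := hmul d₀ hd₀ _ h2
    rw [mul_inv_cancel_left, hμ0 _ ⟨h2, hNle h3⟩, add_zero] at h4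
    rw [h1, h4]
  have hone : (1 : G) ∈ D ⊓ core p H I := Subgroup.one_mem _
  have hμ1 : μ 1 = 0 := hμ0 1 ⟨hone, U'.one_mem⟩
  obtain ⟨ψ, ⟨W', hW', h3⟩, hlam⟩ := hS.loc W hW lam (by
      intro a ha b hb
      rw [key a ha _ (hδ1 a ha) (hδ2 a ha), key b hb _ (hδ1 b hb) (hδ2 b hb),
        ← hmul _ (hδ1 a ha) _ (hδ1 b hb)]
      apply key _ ((D ⊓ W).mul_mem ha hb) _
        ((D ⊓ core p H I).mul_mem (hδ1 a ha) (hδ1 b hb))
      have h1 : (δ a * δ b)⁻¹ * (a * b) = ((δ b)⁻¹ * ((δ a)⁻¹ * a) * δ b) * ((δ b)⁻¹ * b) := by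
        group
      rw [h1]
      refine U'.normalCore.mul_mem ?_ (hδ2 b hb)
      have := hNn.conj_mem _ (hδ2 a ha) (δ b)⁻¹
      rwa [inv_inv] at this)
    ⟨U'.normalCore, hN, by
      rintro a ⟨ha, ha'⟩
      rw [key a ha 1 hone (by rwa [inv_one, one_mul]), hμ1]⟩
  have hgW : g ∈ D ⊓ W := ⟨hg.1, core_le hW hg.2⟩
  have h1 : lam g = μ g := key g hgW g hg (by rw [inv_mul_cancel]; exact Subgroup.one_mem _)
  rw [← h1, hlam g hgW, h3 g (core_le hW' hg.2)]

theorem no_homE (hS : Setup p H I D)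
    {E : Type*} [NormedField E] [NormedAlgebra ℚ_[p] E] [FiniteDimensional ℚ_[p] E]
    (μ : G → E)
    (hmul : ∀ g ∈ D ⊓ core p H I, ∀ h ∈ D ⊓ core p H I, μ (g * h) = μ g + μ h)
    (hcont : ContinuousOn μ ((D ⊓ core p H I : Subgroup G) : Set G))
    {g : G} (hg : g ∈ D ⊓ core p H I) : μ g = 0 := by
  classical
  by_contra hne
  obtain ⟨φ, hφ⟩ : ∃ φ : Module.Dual ℚ_[p] E, φ (μ g) ≠ 0 := by
    by_contra hcon
    push Not at hcon
    exact hne ((Module.forall_dual_apply_eq_zero_iff ℚ_[p] (μ g)).1 hcon)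
  have hφc : Continuous φ := LinearMap.continuous_of_finiteDimensional φ
  have hPc : IsClosed ((D ⊓ core p H I : Subgroup G) : Set G) := by
    rw [Subgroup.coe_inf]
    exact hS.closed.inter core_closed
  have hPk : IsCompact ((D ⊓ core p H I : Subgroup G) : Set G) := hPc.isCompact
  have hfc : ContinuousOn (fun g => φ (μ g))
      ((D ⊓ core p H I : Subgroup G) : Set G) := hφc.comp_continuousOn hcont
  obtain ⟨g₁, hg₁, hmax⟩ := hPk.exists_isMaxOn ⟨g, hg⟩ hfc.norm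
  have hmax' : ∀ h ∈ D ⊓ core p H I, ‖φ (μ h)‖ ≤ ‖φ (μ g₁)‖ := fun h hh => hmax hh
  have hne1 : φ (μ g₁) ≠ 0 := by
    intro h
    have h1 := hmax' g hg
    rw [h, norm_zero] at h1
    exact hφ (norm_le_zero_iff.1 h1)
  let x : G → ℚ_[p] := fun h => φ (μ h) / φ (μ g₁)
  have hx1 : ∀ h ∈ D ⊓ core p H I, ‖x h‖ ≤ 1 := by
    intro h hh
    show ‖φ (μ h) / φ (μ g₁)‖ ≤ 1
    rw [norm_div, div_le_one (norm_pos_iff.2 hne1)]
    exact hmax' h hh
  have hxadd : ∀ a ∈ D ⊓ core p H I, ∀ b ∈ D ⊓ core p H I, x (a * b) = x a + x b := by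
    intro a ha b hb
    show φ (μ (a * b)) / φ (μ g₁) = φ (μ a) / φ (μ g₁) + φ (μ b) / φ (μ g₁)
    rw [hmul a ha b hb, map_add, add_div]
  have hy : ∀ h ∈ D ⊓ core p H I, ∃ y : ℤ_[p], (y : ℚ_[p]) = x h :=
    fun h hh => ⟨⟨x h, hx1 h hh⟩, rfl⟩
  choose! y hy using hy
  let μ' : G → ZMod p := fun h => PadicInt.toZMod (y h)
  have hadd : ∀ a ∈ D ⊓ core p H I, ∀ b ∈ D ⊓ core p H I, μ' (a * b) = μ' a + μ' b := by
    intro a ha b hb
    show PadicInt.toZMod (y (a * b)) = PadicInt.toZMod (y a) + PadicInt.toZMod (y b)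
    rw [← map_add]
    congr 1
    apply Subtype.ext
    rw [PadicInt.coe_add, hy a ha, hy b hb]
    exact (hy _ ((D ⊓ core p H I).mul_mem ha hb)).trans (hxadd a ha b hb)
  have hx0 : x 1 = 0 := by
    have h1 := hxadd 1 (Subgroup.one_mem _) 1 (Subgroup.one_mem _)
    rw [mul_one] at h1
    have : x 1 + 0 = x 1 + x 1 := by rw [add_zero]; exact h1
    exact (add_left_cancel this).symm
  have hcont' : ∃ U' : Subgroup G, IsOpen (U' : Set G) ∧
      ∀ g ∈ D ⊓ core p H I ⊓ U', μ' g = 0 := by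
    have hxc : ContinuousWithinAt (fun h => ‖x h‖)
        ((D ⊓ core p H I : Subgroup G) : Set G) 1 :=
      ((hfc.div_const _).norm) 1 (Subgroup.one_mem _)
    have h1 : {h | ‖x h‖ < 1} ∈ nhdsWithin (1 : G)
        ((D ⊓ core p H I : Subgroup G) : Set G) := by
      refine hxc (Iio_mem_nhds ?_)
      show ‖x 1‖ < 1
      rw [hx0, norm_zero]
      exact one_pos
    rw [mem_nhdsWithin_iff_exists_mem_nhds_inter] at h1
    obtain ⟨O, hO, hO'⟩ := h1
    obtain ⟨F, hF1, hF2⟩ := hS.basis _ hO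
    refine ⟨F, hF1, ?_⟩
    rintro h ⟨hh, hh'⟩
    have h2 : ‖x h‖ < 1 := hO' ⟨hF2 hh', hh⟩
    have h3 : y h ∈ RingHom.ker (PadicInt.toZMod (p := p)) := by
      rw [PadicInt.ker_toZMod]
      rw [IsLocalRing.mem_maximalIdeal, PadicInt.mem_nonunits, PadicInt.norm_def, hy h hh]
      exact h2
    exact h3
  have h1 := no_hom hS μ' hadd hcont' hg₁
  have h2 : y g₁ = 1 := by
    apply Subtype.ext
    rw [PadicInt.coe_one]
    exact (hy g₁ hg₁).trans (div_self hne1)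
  have h3 : PadicInt.toZMod (y g₁) = 0 := h1
  rw [h2, map_one] at h3
  exact one_ne_zero h3

end Pool.Agent.Work.MP_787500_nt.Gn
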