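import Mathlib
import Pool.Agent.Work.MP_787500_nt.Gn.RhoB
import Pool.Agent.Work.MP_787500_nt.Gn.NoHom

/-!
Local cocycles extend uniquely.
-/

set_option autoImplicit false
set_option linter.unusedSectionVars false

namespace Pool.Agent.Work.MP_787500_nt.Gn

open Matrix

variable {G : Type*} [Group G] [TopologicalSpace G] [IsTopologicalGroup G] [CompactSpace G]
variable {p : ℕ} [hp : Fact p.Prime] {H : Subgroup G} {I : Set G} {D : Subgroup G}
variable {E : Type*} [NormedField E] [NormedAlgebra ℚ_[p] E]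
variable {n : ℕ} {χ : G → E}

theorem extend [FiniteDimensional ℚ_[p] E] (hS : Setup p H I D)
    {κ : G → G} {ρ : G →* Matrix (Fin n) (Fin n) E}
    {b : Matrix (Fin n) (Fin n) E} (hρ : ConjDual p H I χ κ ρ b) {x : D → Fin n → E}
    (hx : x ∈ Parity.cocycles (fun σ : D => ρ σ)) :
    ∃ X ∈ Zgd hS.toBase p ρ, ∀ d : D, X d = x d := by
  obtain ⟨hc, hx'⟩ := hx
  have hx : ∀ σ τ : D, x (σ * τ) = x σ + ρ σ *ᵥ x τ := hx'
  have hzero : ∀ k : D, (k : G) ∈ core p H I → x k = 0 := by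
    intro k hk
    funext i
    classical
    set μ : G → E := fun g => if h : g ∈ D then x ⟨g, h⟩ i else 0 with hμ
    have hμ1 : ∀ (g : G) (h : g ∈ D), μ g = x ⟨g, h⟩ i := fun g h => dif_pos h
    have h1 : μ k = 0 := by
      refine no_homE hS μ ?_ ?_ ⟨k.2, hk⟩
      · intro g hg h hh
        have hg1 : g ∈ D := hg.1
        have hh1 : h ∈ D := hh.1
        have hg2 : g ∈ core p H I := hg.2
        have h2 : (⟨g * h, mul_mem hg1 hh1⟩ : D) = ⟨g, hg1⟩ * ⟨h, hh1⟩ := rfl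
        rw [hμ1 g hg1, hμ1 h hh1, hμ1 _ (mul_mem hg1 hh1), h2, hx]
        simp only [rho_core hS.toBase hρ hg2, Matrix.one_mulVec, Pi.add_apply]
      · rw [continuousOn_iff_continuous_domRestrict]
        have h3 : ((D ⊓ core p H I : Subgroup G) : Set G).domRestrict μ =
            fun a => x ⟨a.1, a.2.1⟩ i := by
          funext a
          exact hμ1 _ a.2.1
        rw [h3]
        exact (continuous_apply i).comp (hc.comp (Continuous.subtype_mk continuous_subtype_val _))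
    rw [hμ1 k k.2] at h1
    exact h1
  obtain ⟨Z, hZ, hZx, hZk⟩ := descend hS x hc (by
    intro d k hk
    rw [hx, hzero k hk, Matrix.mulVec_zero, add_zero])
  have hdec : ∀ g : G, ∃ d : D, ∃ k ∈ core p H I, g = d * k := by
    intro g
    obtain ⟨d, hd, hdg⟩ := mul_core hS g
    exact ⟨⟨d, hd⟩, d⁻¹ * g, hdg, by rw [mul_inv_cancel_left]⟩
  refine ⟨Z, ⟨hZ, fun g h => ?_⟩, hZx⟩
  obtain ⟨d, k, hk, rfl⟩ := hdec g
  obtain ⟨e, k', hk', rfl⟩ := hdec h
  have h4 : (d : G) * k * (e * k') =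
      ((d * e : D) : G) * ((e : G)⁻¹ * k * ((e : G)⁻¹)⁻¹ * k') := by
    rw [Subgroup.coe_mul, inv_inv]
    group
  have h5 : (e : G)⁻¹ * k * ((e : G)⁻¹)⁻¹ * k' ∈ core p H I :=
    mul_mem (core_normal.conj_mem k hk _) hk'
  rw [h4, hZk _ _ h5, hZk _ _ hk, hZk _ _ hk', hZx, hZx, hZx, hx, map_mul,
    rho_core hS.toBase hρ hk, mul_one]

theorem zg_unique (hS : Setup p H I D)
    {ρ : G →* Matrix (Fin n) (Fin n) E} {X : G → Fin n → E} (hX : X ∈ Zgd hS.toBase p ρ)
    (h : ∀ d : D, X d = 0) : X = 0 := by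
  funext g
  obtain ⟨d, hd, hdg⟩ := mul_core hS g
  have h1 := (zg_core hX hdg).2 d
  rw [mul_inv_cancel_left] at h1
  rw [h1, h ⟨d, hd⟩]
  rfl

end Pool.Agent.Work.MP_787500_nt.Gn
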