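import Mathlib
import Pool.Agent.Work.MP_787500_nt.Gn.RhoB

/-!
The space of cocycles is finite dimensional.
-/

set_option autoImplicit false
set_option linter.unusedSectionVars false

namespace Pool.Agent.Work.MP_787500_nt.Gn

open Matrix

variable {G : Type*} [Group G] [TopologicalSpace G] [IsTopologicalGroup G] [CompactSpace G]
variable {p : ℕ} [hp : Fact p.Prime] {H : Subgroup G} {I : Set G}
variable {E : Type*} [NormedField E] [NormedAlgebra ℚ_[p] E]
variable {n : ℕ}

theorem zg_finite (hB : Base H I) (T : Finset G)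
    (hT : ∀ W, GoodG p H I W → Subgroup.closure (T : Set G) ⊔ W = ⊤)
    (ρ : G →* Matrix (Fin n) (Fin n) E) : FiniteDimensional E (Zgd hB p ρ) := by
  let ev : Zgd hB p ρ →ₗ[E] (T → Fin n → E) :=
    { toFun := fun X t => (X : G → Fin n → E) t
      map_add' := fun X Y => rfl
      map_smul' := fun a X => rfl }
  refine FiniteDimensional.of_injective ev ?_
  rw [injective_iff_map_eq_zero]
  rintro ⟨X, hX1, hX2⟩ hz
  have hzT : ∀ t ∈ T, X t = 0 := fun t ht => congrFun hz ⟨t, ht⟩
  have h1 : X 1 = 0 := by
    have h := hX2 1 1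
    rw [mul_one, map_one, one_mulVec] at h
    exact left_eq_add.1 h
  have hH : ∀ g ∈ Subgroup.closure (T : Set G), X g = 0 := by
    intro g hg
    induction hg using Subgroup.closure_induction with
    | mem x hx => exact hzT x hx
    | one => exact h1
    | mul x y _ _ hx hy => rw [hX2, hx, hy, mulVec_zero, add_zero]
    | inv x _ hx =>
      have h := hX2 x x⁻¹
      rw [mul_inv_cancel, h1, hx, zero_add] at h
      have h3 := congrArg (fun v => ρ x⁻¹ *ᵥ v) h
      simp only [mulVec_zero, mulVec_mulVec] at h3
      rw [← map_mul, inv_mul_cancel, map_one, one_mulVec] at h3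
      exact h3.symm
  have hall : ∀ g, X g = 0 := by
    intro g
    rw [← norm_le_zero_iff]
    refine le_of_forall_pos_lt_add fun ε hε => ?_
    obtain ⟨W, hW, hWX⟩ := hX1 ε hε
    have hn := hW.normal
    have hg : g ∈ Subgroup.closure (T : Set G) ⊔ W := by
      rw [hT W hW]
      trivial
    obtain ⟨h, hh, w, hw, rfl⟩ := Subgroup.mem_sup_of_normal_right.1 hg
    have h4 := hWX h w hw
    rw [hH h hh, sub_zero] at h4
    rw [zero_add]
    exact h4
  exact Subtype.ext (funext hall)

end Pool.Agent.Work.MP_787500_nt.Gn
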