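import Mathlib
import Pool.Agent.Work.MP_787500_nt.Gn.Stab
import Pool.Agent.Work.MP_787500_nt.Gn.NoHom

/-!
A class is trivial if it is trivial on the decomposition group.
-/

set_option autoImplicit false
set_option linter.unusedSectionVars false

namespace Pool.Agent.Work.MP_787500_nt.Gn

open Matrix

variable {G : Type*} [Group G] [TopologicalSpace G] [IsTopologicalGroup G] [CompactSpace G]
variable {p : ℕ} [hp : Fact p.Prime] {H : Subgroup G} {I : Set G} {D : Subgroup G}
variable {E : Type*} [NormedField E] [NormedAlgebra ℚ_[p] E]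
variable {n : ℕ} {χ : G → E}

theorem lg_cob [FiniteDimensional ℚ_[p] E] (hS : Setup p H I D)
    (hχm : ∀ g h, χ (g * h) = χ g * χ h) (hχc : ∀ k ∈ core p H I, χ k = 1)
    {f : G → G → E} (hf : ZE (GoodG p H I) χ f) :
    BE (GoodG p H I) χ f ↔ ∃ z : D → E, Continuous z ∧
      ∀ σ τ : D, f σ τ = z σ + χ (σ : G) * z τ - z (σ * τ) := by
  obtain ⟨hN2, hcoc⟩ := hf
  constructor
  · rintro ⟨z, hz, rfl⟩
    exact ⟨fun d => z d, hz.continuous.comp continuous_subtype_val, fun σ τ => rfl⟩
  · rintro ⟨z, hzc, hz⟩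
    -- `f` is constant on cosets of the core
    have hfk : ∀ g h : G, ∀ k ∈ core p H I, ∀ k' ∈ core p H I, f (g * k) (h * k') = f g h := by
      intro g h k hk k' hk'
      rw [← sub_eq_zero, ← norm_le_zero_iff]
      refine le_of_forall_pos_le_add fun ε hε => ?_
      obtain ⟨W, hW, hsm⟩ := hN2 ε hε
      rw [zero_add]
      exact (hsm g h k (core_le hW hk) k' (core_le hW hk')).le
    have hzk : ∀ k : D, (k : G) ∈ core p H I → z k = f 1 1 := by
      intro k hk
      classical
      set μ : G → E := fun g => if h : g ∈ D then z ⟨g, h⟩ - f 1 1 else 0 with hμ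
      have hμ1 : ∀ (g : G) (h : g ∈ D), μ g = z ⟨g, h⟩ - f 1 1 :=
        fun g h => dif_pos h
      have h1 : μ k = 0 := by
        refine no_homE hS μ ?_ ?_ ⟨k.2, hk⟩
        · intro g hg h hh
          have hg1 : g ∈ D := hg.1
          have hh1 : h ∈ D := hh.1
          have hg2 : g ∈ core p H I := hg.2
          have hh2 : h ∈ core p H I := hh.2
          have h2 : (⟨g * h, mul_mem hg1 hh1⟩ : D) = ⟨g, hg1⟩ * ⟨h, hh1⟩ := rfl
          have h3 := hz ⟨g, hg1⟩ ⟨h, hh1⟩
          have h4 : f g h = f 1 1 := by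
            have := hfk 1 1 g hg2 h hh2
            rwa [one_mul, one_mul] at this
          simp only [hχc g hg2, one_mul, h4] at h3
          rw [hμ1 g hg1, hμ1 h hh1, hμ1 _ (mul_mem hg1 hh1), h2]
          linear_combination h3
        · rw [continuousOn_iff_continuous_domRestrict]
          have h3 : ((D ⊓ core p H I : Subgroup G) : Set G).domRestrict μ =
              fun a => z ⟨a.1, a.2.1⟩ - f 1 1 := by
            funext a
            exact hμ1 _ a.2.1
          rw [h3]
          exact (hzc.comp (Continuous.subtype_mk continuous_subtype_val _)).sub continuous_const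
      rw [hμ1 k k.2] at h1
      exact sub_eq_zero.1 h1
    have hf1 : ∀ g : G, f g 1 = χ g * f 1 1 := by
      intro g
      have := hcoc g 1 1
      rw [mul_one, mul_one] at this
      exact add_right_cancel this
    obtain ⟨Z, hZ, hZz, hZk⟩ := descend hS z hzc (by
      intro d k hk
      have h1 := hz d k
      have h2 : f d k = f d 1 := by
        have := hfk d 1 1 (one_mem _) k hk
        rwa [one_mul, mul_one] at this
      rw [hzk k hk, h2, hf1] at h1
      linear_combination h1)
    have hdec : ∀ g : G, ∃ d : D, ∃ k ∈ core p H I, g = d * k := by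
      intro g
      obtain ⟨d, hd, hdg⟩ := mul_core hS g
      exact ⟨⟨d, hd⟩, d⁻¹ * g, hdg, by rw [mul_inv_cancel_left]⟩
    refine ⟨Z, hZ, ?_⟩
    funext g h
    obtain ⟨d, k, hk, rfl⟩ := hdec g
    obtain ⟨e, k', hk', rfl⟩ := hdec h
    have h4 : (d : G) * k * (e * k') =
        ((d * e : D) : G) * ((e : G)⁻¹ * k * ((e : G)⁻¹)⁻¹ * k') := by
      rw [Subgroup.coe_mul, inv_inv]
      group
    have h5 : (e : G)⁻¹ * k * ((e : G)⁻¹)⁻¹ * k' ∈ core p H I :=
      mul_mem (core_normal.conj_mem k hk _) hk'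
    have h6 : χ ((d : G) * k) = χ (d : G) := by
      rw [hχm, hχc k hk, mul_one]
    simp only [dE]
    rw [h4, hZk _ _ h5, hZk _ _ hk, hZk _ _ hk', hZz, hZz, hZz, h6, hfk _ _ _ hk _ hk', hz]

end Pool.Agent.Work.MP_787500_nt.Gn
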