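import Mathlib
import Pool.Agent.Work.MP_787500_nt.Gn.Ext
import Pool.Agent.Work.MP_787500_nt.Gn.LgCob
import Pool.Agent.Work.MP_787500_nt.Gn.PairZE
import Pool.Agent.Work.MP_787500_nt.Gn.FinDim
import Pool.Agent.Work.MP_787500_nt.Gn.SmallX
import Pool.Agent.Work.MP_787500_nt.PA.EvenRank

/-!
Parity of Selmer groups: the assembly (generic).
-/

set_option autoImplicit false
set_option linter.unusedSectionVars false

namespace Pool.Agent.Work.MP_787500_nt.Gn

open Matrix Pool.Agent.Work.MP_787500_nt.Parity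

variable {G : Type*} [Group G] [TopologicalSpace G] [IsTopologicalGroup G] [CompactSpace G]
variable {p : ℕ} [hp : Fact p.Prime] {H : Subgroup G} {I : Set G} {D : Subgroup G}
variable {E : Type*} [NormedField E] [NormedAlgebra ℚ_[p] E]
variable {n : ℕ} {χ : G → E}

/-- restriction to the subgroup -/
def resLin (E : Type*) [NormedField E] (n : ℕ) (D : Subgroup G) :
    (G → Fin n → E) →ₗ[E] (D → Fin n → E) :=
  LinearMap.funLeft E (Fin n → E) (Subtype.val : D → G)

section

variable {κ : G → G} {ρ : G →* Matrix (Fin n) (Fin n) E} {b : Matrix (Fin n) (Fin n) E}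

theorem om_add_left (X X' Y : G → Fin n → E) (g h : G) :
    om κ ρ b (X + X') Y g h = om κ ρ b X Y g h + om κ ρ b X' Y g h := by
  simp only [om, Pi.add_apply, add_dotProduct]

theorem om_add_right (X Y Y' : G → Fin n → E) (g h : G) :
    om κ ρ b X (Y + Y') g h = om κ ρ b X Y g h + om κ ρ b X Y' g h := by
  simp only [om, Pi.add_apply, mulVec_add, dotProduct_add]

theorem om_smul_left (a : E) (X Y : G → Fin n → E) (g h : G) :
    om κ ρ b (a • X) Y g h = a * om κ ρ b X Y g h := by
  simp only [om, Pi.smul_apply, smul_dotProduct, smul_eq_mul]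

theorem om_smul_right (a : E) (X Y : G → Fin n → E) (g h : G) :
    om κ ρ b X (a • Y) g h = a * om κ ρ b X Y g h := by
  simp only [om, Pi.smul_apply, mulVec_smul, dotProduct_smul, smul_eq_mul]

/-- the antisymmetric form -/
noncomputable def form (hB : Base H I) (hi : IsInvol (GoodG p H I) χ κ)
    (hρ : ConjDual p H I χ κ ρ b)
    {inv : (G → G → E) → E} (hinv : InvMap (GoodG p H I) χ κ inv)
    (M : Submodule E (G → Fin n → E)) (hM : M ≤ Zgd hB p ρ) : M →ₗ[E] M →ₗ[E] E :=
  LinearMap.mk₂ E (fun X Y => inv (om κ ρ b (X : G → Fin n → E) Y))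
    (fun X X' Y => by
      have h1 := hinv.add _ _ (om_ZE hB hi hρ (hM X.2) (hM Y.2))
        (om_ZE hB hi hρ (hM X'.2) (hM Y.2))
      rw [← h1]
      congr 1
      funext g h
      exact om_add_left _ _ _ g h)
    (fun a X Y => by
      have h1 := hinv.smul a _ (om_ZE hB hi hρ (hM X.2) (hM Y.2))
      rw [smul_eq_mul, ← h1]
      congr 1
      funext g h
      exact om_smul_left _ _ _ g h)
    (fun X Y Y' => by
      have h1 := hinv.add _ _ (om_ZE hB hi hρ (hM X.2) (hM Y.2))
        (om_ZE hB hi hρ (hM X.2) (hM Y'.2))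
      rw [← h1]
      congr 1
      funext g h
      exact om_add_right _ _ _ g h)
    (fun a X Y => by
      have h1 := hinv.smul a _ (om_ZE hB hi hρ (hM X.2) (hM Y.2))
      rw [smul_eq_mul, ← h1]
      congr 1
      funext g h
      exact om_smul_right _ _ _ g h)

theorem form_apply (hB : Base H I) (hi : IsInvol (GoodG p H I) χ κ)
    (hρ : ConjDual p H I χ κ ρ b)
    {inv : (G → G → E) → E} (hinv : InvMap (GoodG p H I) χ κ inv)
    (M : Submodule E (G → Fin n → E)) (hM : M ≤ Zgd hB p ρ) (X Y : M) :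
    form hB hi hρ hinv M hM X Y = inv (om κ ρ b (X : G → Fin n → E) Y) := rfl

theorem ZE.comp_kappa (hi : IsInvol (GoodG p H I) χ κ) {f : G → G → E}
    (hf : ZE (GoodG p H I) χ f) : ZE (GoodG p H I) χ (fun g h => f (κ g) (κ h)) := by
  refine ⟨fun ε hε => ?_, fun g h k => ?_⟩
  · obtain ⟨W, hW, h1⟩ := hf.1 ε hε
    obtain ⟨W', hW', h2⟩ := hi.sys W hW
    refine ⟨W', hW', fun g h w hw w' hw' => ?_⟩
    simp only [hi.mul]
    exact h1 _ _ _ (h2 w hw) _ (h2 w' hw')
  · have := hf.2 (κ g) (κ h) (κ k)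
    rw [hi.chi] at this
    simp only [hi.mul]
    exact this

theorem form_anti (hB : Base H I) (hi : IsInvol (GoodG p H I) χ κ)
    (hρ : ConjDual p H I χ κ ρ b)
    {inv : (G → G → E) → E} (hinv : InvMap (GoodG p H I) χ κ inv)
    (M : Submodule E (G → Fin n → E)) (hM : M ≤ Zgd hB p ρ) (X Y : M) :
    form hB hi hρ hinv M hM X Y = - form hB hi hρ hinv M hM Y X := by
  rw [form_apply, form_apply]
  have h1 := om_ZE hB hi hρ (hM X.2) (hM Y.2)
  have h2 := om_ZE hB hi hρ (hM Y.2) (hM X.2)
  have h3 := om_anti hB hi hρ (hM X.2) (hM Y.2)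
  have h1' := ZE.comp_kappa hi h1
  have h4 := hinv.add _ _ h2 h1'
  have h5 : ZE (GoodG p H I) χ (fun g h => om κ ρ b (Y : G → Fin n → E) X g h +
      om κ ρ b (X : G → Fin n → E) Y (κ g) (κ h)) := by
    refine ⟨fun ε hε => ?_, fun g h k => ?_⟩
    · obtain ⟨W, hW, h6⟩ := h2.1 (ε / 2) (half_pos hε)
      obtain ⟨W', hW', h7⟩ := h1'.1 (ε / 2) (half_pos hε)
      refine ⟨W ⊓ W', hW.inf hW', fun g h w hw w' hw' => ?_⟩
      have h8 := h6 g h w hw.1 w' hw'.1
      have h9 := h7 g h w hw.2 w' hw'.2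
      calc _ = ‖(om κ ρ b (Y : G → Fin n → E) X (g * w) (h * w') -
            om κ ρ b (Y : G → Fin n → E) X g h) +
            (om κ ρ b (X : G → Fin n → E) Y (κ (g * w)) (κ (h * w')) -
              om κ ρ b (X : G → Fin n → E) Y (κ g) (κ h))‖ := by
              congr 1
              ring
        _ < ε := (norm_add_le _ _).trans_lt (by linarith)
    · have h6 := h2.2 g h k
      have h7 := h1'.2 g h k
      linear_combination h6 + h7
  have h6 := (hinv.ker _ h5).2 h3
  rw [h4, hinv.kap _ h1] at h6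
  linear_combination h6

end

/-- Parity, generic: `T` is a finite set of topological generators of all good quotients. -/
theorem parity [FiniteDimensional ℚ_[p] E] (hS : Setup p H I D)
    (hχm : ∀ g h, χ (g * h) = χ g * χ h) (hχc : ∀ k ∈ core p H I, χ k = 1)
    (T : Finset G) (hT : ∀ W, GoodG p H I W → Subgroup.closure (T : Set G) ⊔ W = ⊤)
    {κ : G → G} (hi : IsInvol (GoodG p H I) χ κ) (hκc : Continuous κ)
    {inv : (G → G → E) → E} (hinv : InvMap (GoodG p H I) χ κ inv)
    {ρ : G →* Matrix (Fin n) (Fin n) E} {b : Matrix (Fin n) (Fin n) E}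
    (hρ : ConjDual p H I χ κ ρ b) : ParityBound I χ κ ρ b D := by
  rintro L ⟨hL1, hL2⟩
  have hB := hS.toBase
  have hfin : FiniteDimensional E (Zgd hB p ρ) := zg_finite hB T hT ρ
  have hcharE : CharZero E := charZero_of_injective_algebraMap (algebraMap ℚ_[p] E).injective
  set M : Submodule E (G → Fin n → E) := Zgd hB p ρ ⊓ L.comap (resLin E n D) with hMdef
  have hM : M ≤ Zgd hB p ρ := inf_le_left
  have hMfin : FiniteDimensional E M := Submodule.finiteDimensional_of_le hM
  -- the Selmer space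
  set Sel := Parity.selmer I χ κ ρ b D L with hSel
  have hSelM : Sel ≤ M := by
    rintro X ⟨⟨h1, h2⟩, h3, h4, h5⟩
    exact ⟨small_x hB hρ h1 h2 h3, h4⟩
  have hSelfin : FiniteDimensional E Sel := Submodule.finiteDimensional_of_le (hSelM.trans hM)
  -- restriction is an isomorphism from M to L
  have hres : ∀ X : M, resLin E n D X ∈ L := fun X => X.2.2
  let r : M →ₗ[E] L := (resLin E n D ∘ₗ M.subtype).codRestrict L hres
  have hr : ∀ X : M, ∀ d : D, (r X : D → Fin n → E) d = (X : G → Fin n → E) d := fun _ _ => rfl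
  have hrinj : Function.Injective r := by
    rw [injective_iff_map_eq_zero]
    intro X hX
    apply Subtype.ext
    refine zg_unique hS (hM X.2) (fun d => ?_)
    rw [← hr X d, hX]
    rfl
  have hrsurj : Function.Surjective r := by
    intro x
    obtain ⟨X, hX, hXd⟩ := extend hS hρ (hL2 x.2)
    refine ⟨⟨X, hX, ?_⟩, ?_⟩
    · have : resLin E n D X = x := by
        funext d
        exact hXd d
      show resLin E n D X ∈ L
      rw [this]
      exact x.2
    · apply Subtype.ext
      funext d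
      exact hXd d
  let re : M ≃ₗ[E] L := LinearEquiv.ofBijective r ⟨hrinj, hrsurj⟩
  have hLfin : FiniteDimensional E L := LinearEquiv.finiteDimensional re
  -- Parity.coboundaries
  have hcob : Parity.coboundaries ρ ≤ Sel := by
    rintro X ⟨x, hx⟩
    have hX : X = fun g => ρ g *ᵥ x - x := funext hx
    have hXZ : X ∈ Zgd hB p ρ := cob_mem hB hρ ⟨x, hx⟩
    have hXD : resLin E n D X ∈ L := hL1 ⟨x, fun σ => hx σ⟩
    refine ⟨⟨zg_continuous hXZ, hXZ.2⟩, fun σ hσ => zg_inertia hXZ hσ, hXD,
      ⟨(zg_continuous hXZ).comp (hκc.comp continuous_subtype_val), fun σ τ => ?_⟩,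
      fun y hy => ?_⟩
    · show X (κ (σ * τ)) = X (κ σ) + ρ (κ σ) *ᵥ X (κ τ)
      rw [hi.mul, hXZ.2]
    · obtain ⟨Y, hY, hYd⟩ := extend hS hρ (hL2 hy)
      have h1 := om_cob hB hi hρ hY x
      rw [← hX] at h1
      obtain ⟨z, hz, hz'⟩ := (lg_cob hS hχm hχc (om_ZE hB hi hρ hY hXZ)).1 h1
      refine ⟨z, hz, fun σ τ => ?_⟩
      rw [← hYd σ]
      exact hz' σ τ
  have hcobfin : FiniteDimensional E (Parity.coboundaries ρ) :=
    Submodule.finiteDimensional_of_le (hcob.trans (hSelM.trans hM))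
  -- the form
  have hker : Sel.submoduleOf M = LinearMap.ker (form hB hi hρ hinv M hM) := by
    ext X
    rw [LinearMap.mem_ker]
    show (X : G → Fin n → E) ∈ Sel ↔ _
    constructor
    · rintro ⟨⟨h1, h2⟩, h3, h4, h5, h6⟩
      ext Y
      rw [form_anti, LinearMap.zero_apply, neg_eq_zero, form_apply]
      rw [hinv.ker _ (om_ZE hB hi hρ (hM Y.2) (hM X.2)),
        lg_cob hS hχm hχc (om_ZE hB hi hρ (hM Y.2) (hM X.2))]
      exact h6 _ (hres Y)
    · intro h
      have hXZ := hM X.2
      refine ⟨⟨zg_continuous hXZ, hXZ.2⟩, fun σ hσ => zg_inertia hXZ hσ, hres X,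
        ⟨(zg_continuous hXZ).comp (hκc.comp continuous_subtype_val), fun σ τ => ?_⟩,
        fun y hy => ?_⟩
      · show (X : G → Fin n → E) (κ (σ * τ)) = (X : G → Fin n → E) (κ σ) +
          ρ (κ σ) *ᵥ (X : G → Fin n → E) (κ τ)
        rw [hi.mul, hXZ.2]
      · obtain ⟨Y, hY⟩ := hrsurj ⟨y, hy⟩
        have h1 : form hB hi hρ hinv M hM Y X = 0 := by
          rw [form_anti, h, LinearMap.zero_apply, neg_zero]
        rw [form_apply, hinv.ker _ (om_ZE hB hi hρ (hM Y.2) (hM X.2)),
          lg_cob hS hχm hχc (om_ZE hB hi hρ (hM Y.2) (hM X.2))] at h1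
        obtain ⟨z, hz, hz'⟩ := h1
        refine ⟨z, hz, fun σ τ => ?_⟩
        have h2 : y σ = (Y : G → Fin n → E) σ := by
          rw [← hr Y σ, hY]
        rw [h2]
        exact hz' σ τ
  obtain ⟨k, hk⟩ := PA.even_rank (form hB hi hρ hinv M hM) (form_anti hB hi hρ hinv M hM)
  rw [← hker] at hk
  -- dimensions
  have hd1 : Module.finrank E (Sel.submoduleOf M) = Module.finrank E Sel :=
    LinearEquiv.finrank_eq (Submodule.submoduleOfEquivOfLe hSelM)
  have hd2 : Module.finrank E M = Module.finrank E L := LinearEquiv.finrank_eq re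
  have hd3 : Module.finrank E ((Parity.coboundaries ρ).submoduleOf Sel) =
      Module.finrank E (Parity.coboundaries ρ) :=
    LinearEquiv.finrank_eq (Submodule.submoduleOfEquivOfLe hcob)
  have hd4 : Module.finrank E ((Parity.coboundaries (fun σ : D => ρ σ)).submoduleOf L) =
      Module.finrank E (Parity.coboundaries (fun σ : D => ρ σ)) :=
    LinearEquiv.finrank_eq (Submodule.submoduleOfEquivOfLe hL1)
  have hd5 : Module.finrank E (Parity.coboundaries ρ) =
      Module.finrank E (Parity.coboundaries (fun σ : D => ρ σ)) := by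
    have h1 : (Parity.coboundaries ρ).map (resLin E n D) = Parity.coboundaries (fun σ : D => ρ σ) := by
      ext x
      constructor
      · rintro ⟨X, ⟨x, hx⟩, rfl⟩
        exact ⟨x, fun σ => hx σ⟩
      · rintro ⟨x, hx⟩
        exact ⟨fun g => ρ g *ᵥ x - x, ⟨x, fun _ => rfl⟩, funext fun σ => (hx σ).symm⟩
    rw [← h1]
    have hinj : Function.Injective ((resLin E n D).domRestrict (Parity.coboundaries ρ)) := by
      rw [injective_iff_map_eq_zero]
      intro X hX
      apply Subtype.ext
      exact zg_unique hS (cob_mem hB hρ X.2) (fun d => congrFun hX d)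
    rw [← LinearMap.range_domRestrict, LinearMap.finrank_range_of_inj hinj]
  have hd6 := Submodule.finrank_quotient_add_finrank ((Parity.coboundaries ρ).submoduleOf Sel)
  have hd7 := Submodule.finrank_quotient_add_finrank
    ((Parity.coboundaries (fun σ : D => ρ σ)).submoduleOf L)
  refine ⟨inferInstance, inferInstance, hcob, k, ?_⟩
  unfold Parity.dimModulo
  omega

end Pool.Agent.Work.MP_787500_nt.Gn
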